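import Pool.Agent.W646.SE.Alg

set_option autoImplicit false

/-! The difference of two tilted averages, with a separate bound for the pair `a`, `b`. -/

namespace Pool.Agent.E8helper20.GL

open Finset Pool.Agent.H983R2.GC Pool.Agent.W341.SE Pool.Agent.W646.SE

theorem algPair {C : Type} [DecidableEq C] (Lf : Finset C) (z t F : C → ℝ) (K κ Φ : ℝ)
    (a b : C) (hz0 : ∀ c, c ∉ Lf → z c = 0) (hz : ∀ c, 0 ≤ z c) (hz1 : ∀ c, z c ≤ 1)
    (hK : 0 ≤ K)
    (hF : ∀ c ∈ Lf, ∀ d ∈ Lf, |F c - F d| ≤ 1 + K * min 1 (t c + t d))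
    (hFab : a ∈ Lf → b ∈ Lf → |F a - F b| ≤ 1 + K * Φ)
    (hU : ∀ d ∈ Lf, |(∑ c ∈ Lf, z c) * F d - ∑ c ∈ Lf, z c * F c| ≤
      (∑ c ∈ Lf, z c) * (1 + K * (t d + κ)))
    (hzab : z a ≤ z b) (hZ : 2 ≤ ∑ c ∈ Lf, z c) :
    |(∑ c ∈ Lf.erase a, z c * F c) / ((∑ c ∈ Lf, z c) - z a)
      - (∑ c ∈ Lf.erase b, z c * F c) / ((∑ c ∈ Lf, z c) - z b)| ≤
      1 + K * (z a / ((∑ c ∈ Lf, z c) - z a) * Φ +
        (z b / ((∑ c ∈ Lf, z c) - z b) - z a / ((∑ c ∈ Lf, z c) - z a)) * min 1 (t b + κ)) := by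
  obtain ⟨Z, hZd⟩ : ∃ Z : ℝ, Z = ∑ c ∈ Lf, z c := ⟨_, rfl⟩
  obtain ⟨S, hSd⟩ : ∃ S : ℝ, S = ∑ c ∈ Lf, z c * F c := ⟨_, rfl⟩
  have her : ∀ x : C, ∑ c ∈ Lf.erase x, z c * F c = S - z x * F x := by
    intro x
    by_cases hx : x ∈ Lf
    · rw [hSd, ← Finset.add_sum_erase _ _ hx]; ring
    · rw [Finset.erase_eq_of_notMem hx, hz0 x hx, hSd]; ring
  rw [her a, her b]
  rw [← hZd] at hZ ⊢
  have hUd : ∀ d ∈ Lf, |Z * F d - S| ≤ Z * (1 + K * (t d + κ)) := by
    intro d hd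
    have := hU d hd
    rwa [← hZd, ← hSd] at this
  have hZ0 : 0 < Z := by linarith
  have hP : 1 ≤ Z - z a := by linarith [hz1 a]
  have hQ : 1 ≤ Z - z b := by linarith [hz1 b]
  by_cases hb : b ∈ Lf
  · rw [ident Z S (z a) (z b) (F a) (F b) (Z - z a) (Z - z b) rfl rfl (by linarith) (by linarith)
      hZ0.ne']
    obtain ⟨A, hA⟩ : ∃ A : ℝ, A = z a / (Z - z a) := ⟨_, rfl⟩
    obtain ⟨B, hB⟩ : ∃ B : ℝ, B = z b / (Z - z b) - z a / (Z - z a) := ⟨_, rfl⟩
    rw [← hB, ← hA]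
    have hA0 : 0 ≤ A := by rw [hA]; exact div_nonneg (hz a) (by linarith)
    have hAB : A + B = z b / (Z - z b) := by rw [hA, hB]; ring
    have hB0 : 0 ≤ B := by
      rw [hB, sub_nonneg, div_le_div_iff₀ (by linarith) (by linarith)]
      nlinarith
    have hAB1 : A + B ≤ 1 := by
      rw [hAB, div_le_one (by linarith)]
      linarith [hz1 b]
    have h1 : A * |F b - F a| ≤ A * (1 + K * Φ) := by
      by_cases ha : a ∈ Lf
      · apply mul_le_mul_of_nonneg_left _ hA0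
        rw [abs_sub_comm]
        exact hFab ha hb
      · have : A = 0 := by rw [hA, hz0 a ha]; simp
        rw [this]; simp
    have h2a : |Z * F b - S| ≤ Z * (1 + K) := by
      have e : Z * F b - S = ∑ c ∈ Lf, z c * (F b - F c) := by
        rw [hZd, hSd, Finset.sum_mul, ← Finset.sum_sub_distrib]
        exact Finset.sum_congr rfl fun c _ => by ring
      rw [e]
      refine (Finset.abs_sum_le_sum_abs _ _).trans ?_
      rw [hZd, Finset.sum_mul]
      refine Finset.sum_le_sum fun c hc => ?_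
      rw [abs_mul, abs_of_nonneg (hz c)]
      apply mul_le_mul_of_nonneg_left _ (hz c)
      refine (hF b hb c hc).trans ?_
      have : K * min 1 (t b + t c) ≤ K * 1 := mul_le_mul_of_nonneg_left (min_le_left _ _) hK
      linarith
    have h2 : |F b - S / Z| ≤ 1 + K * min 1 (t b + κ) := by
      have e : F b - S / Z = (Z * F b - S) / Z := by field_simp
      rw [e, abs_div, abs_of_pos hZ0, div_le_iff₀ hZ0]
      rcases min_choice (1 : ℝ) (t b + κ) with h | h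
      · rw [h]; linarith
      · rw [h]; linarith [hUd b hb]
    have h3 : B * |F b - S / Z| ≤ B * (1 + K * min 1 (t b + κ)) :=
      mul_le_mul_of_nonneg_left h2 hB0
    calc |A * (F b - F a) + B * (F b - S / Z)| ≤ |A * (F b - F a)| + |B * (F b - S / Z)| :=
          abs_add_le _ _
      _ = A * |F b - F a| + B * |F b - S / Z| := by
          rw [abs_mul, abs_mul, abs_of_nonneg hA0, abs_of_nonneg hB0]
      _ ≤ A * (1 + K * Φ) + B * (1 + K * min 1 (t b + κ)) := add_le_add h1 h3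
      _ = (A + B) + K * (A * Φ + B * min 1 (t b + κ)) := by ring
      _ ≤ _ := by linarith
  · have hb0 : z b = 0 := hz0 b hb
    have ha0 : z a = 0 := le_antisymm (hb0 ▸ hzab) (hz a)
    rw [ha0, hb0]
    simp

end Pool.Agent.E8helper20.GL
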