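import Pool.Agent.E8helper20.GL.Swap
import Pool.Agent.H983R2.GD.Main

set_option autoImplicit false
set_option linter.unusedSectionVars false
set_option linter.unusedVariables false

/-! The recursion and the mixing time. -/

namespace Pool.Agent.E8helper20.GL

open Finset Pool.Agent.H983R2.GC

/-- The recursion. -/
theorem recGL (s Δ : ℕ) (hs : 2 ≤ s) (hΔ : 1 ≤ Δ) (hγ : 4 * (Δ - 1) < 7 * s) :
    ∃ D : ℝ, 0 ≤ D ∧ ∀ (V C : Type) [Fintype V] [DecidableEq V] [Fintype C] [DecidableEq C]
      (G : SimpleGraph V) (c0 : C), (∀ v, (nb G univ v).card ≤ Δ) → INF G c0 s D := by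
  obtain ⟨m1, hm1⟩ : ∃ m1 : ℝ, m1 = ((Δ - 1 : ℕ) : ℝ) := ⟨_, rfl⟩
  have hm10 : 0 ≤ m1 := by rw [hm1]; exact Nat.cast_nonneg _
  have hs' : (2 : ℝ) ≤ (s : ℝ) := by exact_mod_cast hs
  have hm1s : 4 * m1 < 7 * (s : ℝ) := by rw [hm1]; exact_mod_cast hγ
  obtain ⟨θ, hθ⟩ : ∃ θ : ℝ, θ = m1 * ((4 / 7) / s) := ⟨_, rfl⟩
  have hθ1 : θ < 1 := by
    rw [hθ, ← mul_div_assoc, div_lt_one (by linarith)]
    linarith
  obtain ⟨K, hK⟩ : ∃ K : ℝ, K = max ((m1 + 1) / (1 - θ)) (1000 / 3 * s) := ⟨_, rfl⟩
  have hK1 : m1 + 1 ≤ K * (1 - θ) := by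
    have : (m1 + 1) / (1 - θ) ≤ K := by rw [hK]; exact le_max_left _ _
    rwa [div_le_iff₀ (by linarith)] at this
  have hK2 : 1000 / 3 * s ≤ K := by rw [hK]; exact le_max_right _ _
  have hK3 : 1 ≤ K := by linarith
  obtain ⟨D, hDd⟩ : ∃ D : ℝ, D = K - 1 := ⟨_, rfl⟩
  have hKD : 1 + D = K := by rw [hDd]; ring
  have hD0 : 0 ≤ D := by linarith
  have hfix : m1 * (1 + (1 + D) * ((4 / 7) / s)) ≤ D := by
    have e : m1 * (1 + (1 + D) * ((4 / 7) / s)) = m1 + (1 + D) * θ := by rw [hθ]; ring
    rw [e, hKD]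
    linarith
  have he0 : 0 ≤ 1 + (1 + D) * ((4 / 7) / (s : ℝ)) := by positivity
  refine ⟨(Δ : ℝ) * (1 + (1 + D) * ((4 / 7) / s)), by positivity, ?_⟩
  intro V C _ _ _ _ G c0 hG
  have hDB : ∀ n, DB G c0 s Δ n D ∧ DR G c0 s Δ n (1 + D) := by
    intro n
    induction n with
    | zero =>
      constructor
      · intro R L v b c F hR hv hnb hL hLP hF
        have hR0 : R = ∅ := card_eq_zero.1 (Nat.le_zero.1 hR)
        subst hR0
        rw [EE_congr G c0 ∅ (era L (nb G ∅ v) b) (era L (nb G ∅ v) c)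
          (fun w hw => by simp at hw) F]
        simpa using hD0
      · intro R L v b c F hR hv hnb hL hLP hF hbc h1 h2
        have hR0 : R = ∅ := card_eq_zero.1 (Nat.le_zero.1 hR)
        subst hR0
        rw [EE_congr G c0 ∅ (era L (nb G ∅ v) b) (era L (nb G ∅ v) c)
          (fun w hw => by simp at hw) F]
        rw [sub_self, abs_zero, mul_zero]
        have h3 := zz_le_one G c0 ∅ (nb G ∅ v) (nb_subset _ _ _) L c
        have h4 : 0 ≤ zz G c0 ∅ (nb G ∅ v) L b := by
          unfold zz
          exact div_nonneg (Nat.cast_nonneg _) (Nat.cast_nonneg _)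
        have h5 : 0 ≤ 147 / 200 * zz G c0 ∅ (nb G ∅ v) L b +
            6 / 25 * (1 - zz G c0 ∅ (nb G ∅ v) L c) := by linarith
        exact mul_nonneg (by linarith) h5
    | succ n ih =>
      obtain ⟨ih1, ih2⟩ := ih
      have hsw := fun (R : Finset V) (M : V → Finset C) (v f : V) (a b : C) (F : (V → C) → ℝ)
        (hv : v ∉ R) (hf : f ∈ R) (hvf : G.Adj v f) (hn : R.card ≤ n + 1) (hL : Sl G s R M)
        (hLf : (nb G R f).card + s + 1 ≤ (M f).card) (hF : Lip R F) (hab : a ≠ b) =>
        swapR G c0 s Δ n D hs hγ.le hD0 hG ih1 ih2 R M v f a b F hv hf hvf hn hL hLf hF hab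
      constructor
      · intro R L v b c F hR hv hnb hL hLP hF
        by_cases hbc : b = c
        · subst hbc
          simpa using hD0
        · refine (interp_gen G c0 s n (1 + (1 + D) * ((4 / 7) / s))
            (fun R M v f a b F hv hf hvf hn hL hLf hF hab =>
              (hsw R M v f a b F hv hf hvf hn hL hLf hF hab).1)
            R L v b c F hv hR hL hLP hF hbc).trans ?_
          have h1 : ((nb G R v).card : ℝ) ≤ m1 := by
            rw [hm1]
            exact_mod_cast hnb
          calc ((nb G R v).card : ℝ) * (1 + (1 + D) * ((4 / 7) / s)) ≤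
                m1 * (1 + (1 + D) * ((4 / 7) / s)) := mul_le_mul_of_nonneg_right h1 he0
            _ ≤ D := hfix
      · intro R L v b c F hR hv hnb hL hLP hF hbc h1 h2
        have hpos : 0 < nc G c0 R L := by
          unfold nc
          exact_mod_cast card_pos.2 (col_nonempty G c0 _ _ (Sl_mono G (by omega) _ _ hL))
        have hposb : 0 < nc G c0 R (era L (nb G R v) b) := by
          unfold nc
          exact_mod_cast card_pos.2 (col_nonempty G c0 _ _ (Sl_mono G (by omega) _ _
            (Sl_era G s R _ L b hL hLP)))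
        have hzb : zz G c0 R (nb G R v) L b = nc G c0 R (era L (nb G R v) b) / nc G c0 R L := rfl
        have hzc : zz G c0 R (nb G R v) L c = nc G c0 R (era L (nb G R v) c) / nc G c0 R L := rfl
        have hbig : nc G c0 R L ≤ nc G c0 R (era L (nb G R v) c) +
            nc G c0 R (era L (nb G R v) b) := by
          rw [hzb, hzc, ← add_div, le_div_iff₀ hpos] at h2
          linarith
        have h3 := interpB G c0 s n (by omega) (1 + (1 + D) * ((417 / 1000) / s))
          ((1 + D) * (6 / 25)) (by linarith)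
          (fun R M v f a b F hv hf hvf hn hL hLf hF hab =>
              (hsw R M v f a b F hv hf hvf hn hL hLf hF hab).2)
          R L v c b F hv hR hL hLP hF (Ne.symm hbc) hbig
        rw [abs_sub_comm] at h3
        obtain ⟨m, hm⟩ : ∃ m : ℝ, m = ((nb G R v).card : ℝ) := ⟨_, rfl⟩
        rw [← hm] at h3
        have hm0 : 0 ≤ m := by rw [hm]; exact Nat.cast_nonneg _
        have hmm1 : m ≤ m1 := by rw [hm, hm1]; exact_mod_cast hnb
        obtain ⟨x, hx⟩ : ∃ x : ℝ, x = zz G c0 R (nb G R v) L b := ⟨_, rfl⟩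
        obtain ⟨y, hy⟩ : ∃ y : ℝ, y = zz G c0 R (nb G R v) L c := ⟨_, rfl⟩
        rw [← hx, ← hy]
        have hx0 : 0 ≤ x := by
          rw [hx, hzb]; exact div_nonneg hposb.le hpos.le
        have h4 := mul_le_mul_of_nonneg_left h3 hx0
        refine h4.trans ?_
        have e1 : x * ((nc G c0 R L - nc G c0 R (era L (nb G R v) c)) /
            nc G c0 R (era L (nb G R v) b)) = 1 - y := by
          rw [hx, hy, hzb, hzc]
          field_simp
        have e2 : x * (m * (1 + (1 + D) * ((417 / 1000) / s)) + (1 + D) * (6 / 25) *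
            ((nc G c0 R L - nc G c0 R (era L (nb G R v) c)) /
              nc G c0 R (era L (nb G R v) b))) =
            x * (m * (1 + (1 + D) * ((417 / 1000) / s))) + (1 + D) * (6 / 25) * (1 - y) := by
          rw [← e1]; ring
        rw [e2, hKD]
        have e3 : m * (1 + K * ((417 / 1000) / s)) ≤ K * (147 / 200) := by
          have hms : m / s ≤ 7 / 4 := by
            rw [div_le_iff₀ (by linarith)]
            linarith
          have e4 : m * (1 + K * ((417 / 1000) / s)) = m + K * (417 / 1000) * (m / s) := by ring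
          rw [e4]
          have h6 : K * (417 / 1000) * (m / s) ≤ K * (417 / 1000) * (7 / 4) :=
            mul_le_mul_of_nonneg_left hms (by linarith)
          linarith
        have h7 := mul_le_mul_of_nonneg_left e3 hx0
        linarith
  intro R L v b c F hv hL hLP hF
  by_cases hbc : b = c
  · subst hbc
    simp only [sub_self, abs_zero]
    positivity
  · refine (interp_gen G c0 s R.card (1 + (1 + D) * ((4 / 7) / s))
      (fun R' M v f a b F hv hf hvf hn hL hLf hF hab =>
        (swapR G c0 s Δ _ D hs hγ.le hD0 hG (hDB _).1 (hDB _).2 R' M v f a b F hv hf hvf hn hL hLf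
          hF hab).1)
      R L v b c F hv (by omega) hL hLP hF hbc).trans ?_
    have h1 : ((nb G R v).card : ℝ) ≤ (Δ : ℝ) := by
      have h2 : nb G R v ⊆ nb G univ v := by
        intro w hw
        rw [mem_nb] at hw ⊢
        exact ⟨mem_univ _, hw.2⟩
      exact_mod_cast (card_le_card h2).trans (hG v)
    exact mul_le_mul_of_nonneg_right h1 he0

end Pool.Agent.E8helper20.GL
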