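import Pool.Agent.H983R2.GD.Rec

set_option autoImplicit false
set_option linter.unusedSectionVars false
set_option linter.unusedVariables false

/-! Interpolation over the neighbours of the removed vertex, with a potential. -/

namespace Pool.Agent.E8helper20.GL

open Finset Pool.Agent.H983R2.GC

variable {V C : Type} [Fintype V] [DecidableEq V] [Fintype C] [DecidableEq C]

/-- Number of list colourings as a real number. -/
noncomputable def nc (G : SimpleGraph V) (c0 : C) (R : Finset V) (L : V → Finset C) : ℝ :=
  ((Col G c0 R L).card : ℝ)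

theorem col_mono (G : SimpleGraph V) (c0 : C) (R : Finset V) (L L' : V → Finset C)
    (h : ∀ w, L w ⊆ L' w) : Col G c0 R L ⊆ Col G c0 R L' := by
  intro σ hσ
  rw [mem_Col] at hσ ⊢
  exact ⟨fun v hv => h v (hσ.1 v hv), hσ.2.1, hσ.2.2⟩

theorem era_sub (L : V → Finset C) (S : Finset V) (c : C) (w : V) : era L S c w ⊆ L w := by
  unfold era
  split_ifs
  · exact erase_subset _ _
  · exact Subset.refl _

theorem era_mono (L L' : V → Finset C) (S : Finset V) (c : C) (h : ∀ w, L w ⊆ L' w) (w : V) :
    era L S c w ⊆ era L' S c w := by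
  unfold era
  split_ifs
  · exact erase_subset_erase _ (h w)
  · exact h w

theorem nc_mono (G : SimpleGraph V) (c0 : C) (R : Finset V) (L L' : V → Finset C)
    (h : ∀ w, L w ⊆ L' w) : nc G c0 R L ≤ nc G c0 R L' := by
  unfold nc
  exact_mod_cast card_le_card (col_mono G c0 R L L' h)

/-- Number of colourings in which `f` has the colour `b`. -/
theorem gap_eq (G : SimpleGraph V) (c0 : C) (R : Finset V) (L : V → Finset C) (f : V)
    (hf : f ∈ R) (b : C) :
    nc G c0 R L - nc G c0 R (era L {f} b) =
      (((Col G c0 R L).filter (fun σ => ¬ Kc {f} b σ = 0)).card : ℝ) := by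
  have h1 := col_era G c0 R {f} (singleton_subset_iff.2 hf) L b
  have h2 := Finset.card_filter_add_card_filter_not (s := Col G c0 R L)
    (fun σ => Kc {f} b σ = 0)
  unfold nc
  rw [h1]
  have h3 : (((Col G c0 R L).filter (fun σ => Kc {f} b σ = 0)).card : ℝ) +
      (((Col G c0 R L).filter (fun σ => ¬ Kc {f} b σ = 0)).card : ℝ) =
      ((Col G c0 R L).card : ℝ) := by exact_mod_cast h2
  linarith

theorem gap_nonneg (G : SimpleGraph V) (c0 : C) (R : Finset V) (L : V → Finset C) (f : V)
    (hf : f ∈ R) (b : C) : 0 ≤ nc G c0 R L - nc G c0 R (era L {f} b) := by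
  rw [gap_eq G c0 R L f hf b]
  positivity

theorem gap_mono (G : SimpleGraph V) (c0 : C) (R : Finset V) (L L' : V → Finset C) (f : V)
    (hf : f ∈ R) (b : C) (h : ∀ w, L w ⊆ L' w) :
    nc G c0 R L - nc G c0 R (era L {f} b) ≤ nc G c0 R L' - nc G c0 R (era L' {f} b) := by
  rw [gap_eq G c0 R L f hf b, gap_eq G c0 R L' f hf b]
  exact_mod_cast card_le_card (filter_subset_filter _ (col_mono G c0 R L L' h))

/-- The step of the potential. -/
theorem pot_step (B b c V : ℝ) (hB : 0 ≤ B) (hb : 0 < b) (hc : 0 < c) (hbV : b ≤ V) (hcV : c ≤ V)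
    (hBb : B ≤ b) :
    B / b + (V - max b c) / max b c ≤ (B + (V - b)) / c := by
  have hm : 0 < max b c := lt_max_of_lt_left hb
  have h1 : (V - max b c) / max b c ≤ (V - max b c) / c :=
    div_le_div_of_nonneg_left (by rcases max_choice b c with h | h <;> rw [h] <;> linarith) hc
      (le_max_right _ _)
  refine (add_le_add_right h1 _).trans ?_
  rw [div_add_div _ _ hb.ne' hc.ne', div_le_div_iff₀ (mul_pos hb hc) hc]
  have key : B * c + b * (V - max b c) ≤ (B + (V - b)) * b := by
    rcases le_total b c with h | h
    · rw [max_eq_right h]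
      nlinarith [mul_nonneg (sub_nonneg.2 hBb) (sub_nonneg.2 h)]
    · rw [max_eq_left h]
      nlinarith [mul_nonneg hB (sub_nonneg.2 h)]
  calc (B * c + b * (V - max b c)) * c ≤ ((B + (V - b)) * b) * c :=
        mul_le_mul_of_nonneg_right key hc.le
    _ = (B + (V - b)) * (b * c) := by ring

theorem interpB (G : SimpleGraph V) (c0 : C) (s n : ℕ) (hs : 1 ≤ s) (U1 U2 : ℝ) (hU2 : 0 ≤ U2)
    (hstep : ∀ (R : Finset V) (M : V → Finset C) (v f : V) (a b : C) (F : (V → C) → ℝ), v ∉ R →
      f ∈ R → G.Adj v f → R.card ≤ n + 1 → Sl G s R M → (nb G R f).card + s + 1 ≤ (M f).card →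
      Lip R F → a ≠ b → |EE G c0 R (era M {f} a) F - EE G c0 R (era M {f} b) F| ≤
        U1 + U2 * ((nc G c0 R M - max (nc G c0 R (era M {f} a)) (nc G c0 R (era M {f} b))) /
          max (nc G c0 R (era M {f} a)) (nc G c0 R (era M {f} b))))
    (R : Finset V) (L : V → Finset C) (v : V) (b c : C) (F : (V → C) → ℝ) (hv : v ∉ R)
    (hn : R.card ≤ n + 1) (hL : Sl G s R L) (hLP : SlP G s R (nb G R v) L) (hF : Lip R F)
    (hbc : b ≠ c)
    (hbig : nc G c0 R L ≤ nc G c0 R (era L (nb G R v) b) + nc G c0 R (era L (nb G R v) c)) :
    |EE G c0 R (era L (nb G R v) b) F - EE G c0 R (era L (nb G R v) c) F| ≤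
      ((nb G R v).card : ℝ) * U1 + U2 * ((nc G c0 R L - nc G c0 R (era L (nb G R v) b)) /
        nc G c0 R (era L (nb G R v) c)) := by
  set N := nb G R v with hN
  set nB := nc G c0 R (era L N b) with hnB
  have key : ∀ S : Finset V, S ⊆ N →
      ∃ B D : ℝ, 0 ≤ B ∧ 0 ≤ D ∧ nc G c0 R (era (era L (N \ S) b) S c) = nB + B - D ∧
        B ≤ nc G c0 R (era L (N \ S) b) - nB ∧ D ≤ nc G c0 R L - nc G c0 R (era L S c) ∧
      |EE G c0 R (era L N b) F - EE G c0 R (era (era L (N \ S) b) S c) F| ≤
        (S.card : ℝ) * U1 + U2 * (B / nc G c0 R (era (era L (N \ S) b) S c)) := by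
    intro S
    induction S using Finset.induction_on with
    | empty =>
      intro _
      have e0 : ∀ w ∈ R, era (era L (N \ ∅) b) ∅ c w = era L N b w := by
        intro w _
        unfold era
        simp
      have : EE G c0 R (era (era L (N \ ∅) b) ∅ c) F = EE G c0 R (era L N b) F :=
        EE_congr G c0 R _ _ e0 F
      have h2 : nc G c0 R (era (era L (N \ ∅) b) ∅ c) = nB := by
        rw [hnB]; unfold nc; rw [Col_congr G c0 R _ _ e0]
      have h3 : nc G c0 R (era L ∅ c) = nc G c0 R L := by
        rw [rem_era_empty]
      have h4 : nc G c0 R (era L (N \ ∅) b) = nB := by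
        rw [sdiff_empty]
      refine ⟨0, 0, le_rfl, le_rfl, ?_, ?_, ?_, ?_⟩
      · rw [h2]; ring
      · rw [h4]; simp
      · rw [h3]; simp
      · rw [this]; simp
    | insert f S hfS ih =>
      intro hS
      have hfN : f ∈ N := hS (mem_insert_self _ _)
      have hSN : S ⊆ N := fun w hw => hS (mem_insert_of_mem hw)
      obtain ⟨B, D, hB0, hD0, hw, hBu, hDu, hE⟩ := ih hSN
      set M := era (era L (N \ insert f S) b) S c with hM
      have hfR : f ∈ R := nb_subset G R v hfN
      have hMw : ∀ w, (L w).card ≤ (M w).card + (if w ∈ N then 1 else 0) := by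
        intro w
        rw [hM]
        by_cases hwS : w ∈ S
        · have hwN : w ∈ N := hSN hwS
          have h1 : w ∉ N \ insert f S := by simp [hwS]
          have h2 := card_era_le (era L (N \ insert f S) b) S c w
          rw [era_not_mem L _ b w h1] at h2
          rw [if_pos hwN]
          exact h2
        · rw [era_not_mem _ S c w hwS]
          by_cases hwN : w ∈ N
          · rw [if_pos hwN]
            exact card_era_le L _ b w
          · have h1 : w ∉ N \ insert f S := by simp [hwN]
            rw [era_not_mem L _ b w h1]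
            omega
      have hMf : M f = L f := by
        rw [hM, era_not_mem _ S c f hfS, era_not_mem]
        simp
      have hMSl : Sl G s R M := by
        intro w hw
        have h1 := hMw w
        by_cases hwN : w ∈ N
        · have h2 := hLP w hwN
          rw [if_pos hwN] at h1
          omega
        · have h2 := hL w hw
          rw [if_neg hwN] at h1
          omega
      have hadj : G.Adj v f := ((mem_nb G R v f).1 hfN).2
      have step := hstep R M v f b c F hv hfR hadj hn hMSl
        (by rw [hMf]; exact hLP f hfN) hF hbc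
      have ee1 : ∀ w ∈ R, era M {f} b w = era (era L (N \ S) b) S c w := by
        intro w _
        rw [hM]
        unfold era
        by_cases hwf : w = f
        · subst hwf
          simp [hfS, hfN]
        · simp [hwf]
      have ee2 : ∀ w ∈ R, era M {f} c w =
          era (era L (N \ insert f S) b) (insert f S) c w := by
        intro w _
        rw [hM]
        unfold era
        by_cases hwf : w = f
        · subst hwf
          simp [hfS]
        · simp [hwf]
      have ee3 : ∀ w ∈ R, era (era L (N \ insert f S) b) {f} b w = era L (N \ S) b w := by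
        intro w _
        unfold era
        by_cases hwf : w = f
        · subst hwf
          simp [hfS, hfN]
        · simp [hwf]
      have e1 : EE G c0 R (era M {f} b) F = EE G c0 R (era (era L (N \ S) b) S c) F :=
        EE_congr G c0 R _ _ ee1 F
      have e2 : EE G c0 R (era M {f} c) F =
          EE G c0 R (era (era L (N \ insert f S) b) (insert f S) c) F :=
        EE_congr G c0 R _ _ ee2 F
      have c1 : nc G c0 R (era M {f} b) = nc G c0 R (era (era L (N \ S) b) S c) := by
        unfold nc; rw [Col_congr G c0 R _ _ ee1]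
      have c2 : nc G c0 R (era M {f} c) =
          nc G c0 R (era (era L (N \ insert f S) b) (insert f S) c) := by
        unfold nc; rw [Col_congr G c0 R _ _ ee2]
      have c3 : nc G c0 R (era (era L (N \ insert f S) b) {f} b) = nc G c0 R (era L (N \ S) b) := by
        unfold nc; rw [Col_congr G c0 R _ _ ee3]
      have c4 : nc G c0 R (era (era L S c) {f} c) = nc G c0 R (era L (insert f S) c) := by
        rw [rem_era_insert]
      -- the two gaps
      have g1 := gap_mono G c0 R M (era L (N \ insert f S) b) f hfR b (fun w => by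
        rw [hM]; exact era_sub _ _ _ _)
      have g2 := gap_mono G c0 R M (era L S c) f hfR c (fun w => by
        rw [hM]; exact era_mono _ _ S c (fun w => era_sub _ _ _ _) w)
      have g1' := gap_nonneg G c0 R M f hfR b
      have g2' := gap_nonneg G c0 R M f hfR c
      rw [c1, c3] at g1
      rw [c1] at g1'
      rw [c2, c4] at g2
      rw [c2] at g2'
      rw [e1, e2, c1, c2] at step
      rw [← c2, ← e2]
      rw [← c2] at g2 g2' step
      rw [← e2] at step
      set w0 := nc G c0 R (era (era L (N \ S) b) S c) with hw0
      set w1 := nc G c0 R (era M {f} c) with hw1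
      set vM := nc G c0 R M with hvM
      -- positivity
      have hposb : 0 < w0 := by
        rw [← c1]
        unfold nc
        have : Sl G s R (era M {f} b) := Sl_era G s R {f} M b hMSl (fun w hw => by
          rw [mem_singleton] at hw
          subst hw
          rw [hMf]; exact hLP w hfN)
        exact_mod_cast card_pos.2 (col_nonempty G c0 R _ (Sl_mono G hs R _ this))
      have hposc : 0 < w1 := by
        rw [hw1]
        unfold nc
        have : Sl G s R (era M {f} c) := Sl_era G s R {f} M c hMSl (fun w hw => by
          rw [mem_singleton] at hw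
          subst hw
          rw [hMf]; exact hLP w hfN)
        exact_mod_cast card_pos.2 (col_nonempty G c0 R _ (Sl_mono G hs R _ this))
      have hBw : B ≤ w0 := by
        have h5 : nc G c0 R (era L N c) ≤ nc G c0 R (era L S c) := by
          apply nc_mono
          intro w
          unfold era
          by_cases h6 : w ∈ S
          · rw [if_pos h6, if_pos (hSN h6)]
          · rw [if_neg h6]
            split_ifs
            · exact erase_subset _ _
            · exact Subset.refl _
        linarith
      have hps := pot_step B w0 w1 vM hB0 hposb hposc (by linarith) (by linarith) hBw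
      refine ⟨B + (vM - w0), D + (vM - w1), by linarith, by linarith, by linarith, by linarith,
        by linarith, ?_⟩
      rw [card_insert_of_notMem hfS]
      push_cast
      have h7 := abs_sub_le (EE G c0 R (era L N b) F) (EE G c0 R (era (era L (N \ S) b) S c) F)
        (EE G c0 R (era M {f} c) F)
      have h8 := mul_le_mul_of_nonneg_left hps hU2
      rw [mul_add] at h8
      linarith
  obtain ⟨B, D, hB0, hD0, hw, hBu, hDu, hE⟩ := key N (Subset.refl _)
  have e0 : ∀ w ∈ R, era (era L (N \ N) b) N c w = era L N c w := by
    intro w _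
    unfold era
    simp
  have e : EE G c0 R (era (era L (N \ N) b) N c) F = EE G c0 R (era L N c) F :=
    EE_congr G c0 R _ _ e0 F
  have e' : nc G c0 R (era (era L (N \ N) b) N c) = nc G c0 R (era L N c) := by
    unfold nc; rw [Col_congr G c0 R _ _ e0]
  have e'' : nc G c0 R (era L (N \ N) b) = nc G c0 R L := by
    rw [sdiff_self]
    have : era L ∅ b = L := rem_era_empty L b
    exact congrArg _ this
  rw [e, e'] at hE
  rw [e''] at hBu
  refine hE.trans ?_
  have hpos : 0 < nc G c0 R (era L N c) := by
    unfold nc
    exact_mod_cast card_pos.2 (col_nonempty G c0 R _ (Sl_mono G hs R _ (Sl_era G s R N L c hL hLP)))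
  have h9 : B / nc G c0 R (era L N c) ≤ (nc G c0 R L - nB) / nc G c0 R (era L N c) :=
    div_le_div_of_nonneg_right hBu hpos.le
  have := mul_le_mul_of_nonneg_left h9 hU2
  linarith

end Pool.Agent.E8helper20.GL
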