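import Mathlib

set_option autoImplicit false

/-! The numeric inequalities. -/

namespace Pool.Agent.E8helper20.GL

open Real

theorem neg_log_sinh (y : ℝ) (hy : 0 < y) (hy1 : y ≤ 1) : -Real.log y ≤ (1 / y - y) / 2 := by
  have h1 : 0 ≤ Real.log y⁻¹ := Real.log_nonneg ((one_le_inv₀ hy).2 hy1)
  have h2 := Real.self_le_sinh_iff.2 h1
  rw [Real.sinh_log (inv_pos.2 hy), inv_inv, Real.log_inv] at h2
  rw [one_div]
  exact h2

theorem tangent (x a : ℝ) (hx : 0 < x) (ha : 0 < a) :
    x * (-Real.log x) ≤ x * (-Real.log a) + a - x := by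
  have h := Real.one_sub_inv_le_log_of_pos (div_pos hx ha)
  rw [Real.log_div hx.ne' ha.ne', inv_div] at h
  have h2 := mul_le_mul_of_nonneg_left h hx.le
  have h3 : x * (1 - a / x) = x - a := by field_simp
  rw [h3] at h2
  linarith

theorem exp_half : Real.exp (-(3 / 5)) ≤ 11 / 20 := by
  have h1 : Real.exp (3 / 5) ^ 5 = Real.exp 1 ^ 3 := by
    rw [← Real.exp_nat_mul, ← Real.exp_nat_mul]; norm_num
  have h2 := Real.exp_one_gt_d9
  have h3 : (20 / 11 : ℝ) ^ 5 ≤ Real.exp (3 / 5) ^ 5 := by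
    rw [h1]
    have : (2.7182818283 : ℝ) ^ 3 ≤ Real.exp 1 ^ 3 := pow_le_pow_left₀ (by norm_num) h2.le 3
    refine le_trans ?_ this
    norm_num
  have h4 : (20 / 11 : ℝ) ≤ Real.exp (3 / 5) :=
    le_of_pow_le_pow_left₀ (by norm_num) (Real.exp_pos _).le h3
  rw [Real.exp_neg, inv_le_comm₀ (Real.exp_pos _) (by norm_num)]
  refine le_trans ?_ h4
  norm_num

theorem log61 : -Real.log (61 / 100) ≤ 495 / 1000 := by
  have h := Real.le_log_one_add_of_nonneg (x := 22 / 100) (by norm_num)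
  have h2 : Real.log (61 / 100) = Real.log (1 + 22 / 100) - Real.log 2 := by
    rw [← Real.log_div (by norm_num) (by norm_num)]; norm_num
  have h3 := Real.log_two_lt_d9
  rw [h2]
  norm_num at h ⊢
  linarith

theorem log69 : -Real.log (69 / 100) ≤ 374 / 1000 := by
  have h := Real.le_log_one_add_of_nonneg (x := 38 / 100) (by norm_num)
  have h2 : Real.log (69 / 100) = Real.log (1 + 38 / 100) - Real.log 2 := by
    rw [← Real.log_div (by norm_num) (by norm_num)]; norm_num
  have h3 := Real.log_two_lt_d9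
  rw [h2]
  norm_num at h ⊢
  linarith

theorem log643 : -Real.log (643 / 1000) ≤ 443 / 1000 := by
  have h := Real.le_log_one_add_of_nonneg (x := 286 / 1000) (by norm_num)
  have h2 : Real.log (643 / 1000) = Real.log (1 + 286 / 1000) - Real.log 2 := by
    rw [← Real.log_div (by norm_num) (by norm_num)]; norm_num
  have h3 := Real.log_two_lt_d9
  rw [h2]
  norm_num at h ⊢
  linarith

/-- The bound for the shift term. -/
noncomputable def kap (S : ℝ) : ℝ := 7 / 5 - (343 / 250) / S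

theorem kap_le (S : ℝ) (hS : 1 ≤ S) : kap S ≤ 28 / 1000 + 1372 / 1000 * (S - 1) := by
  unfold kap
  have h1 : 2 - S ≤ 1 / S := by
    rw [le_div_iff₀ (by linarith)]
    nlinarith [sq_nonneg (S - 1)]
  have h2 : (343 / 250 : ℝ) / S = 343 / 250 * (1 / S) := by ring
  rw [h2]
  linarith

theorem kap_mul (S : ℝ) (hS : 1 ≤ S) : kap S * S = 7 / 5 * S - 343 / 250 := by
  unfold kap
  have : S ≠ 0 := by linarith
  field_simp

/-- One colour with large availability. -/
theorem lemA (y S A : ℝ) (hy : 0 < y) (hS : 1 ≤ S) (hA : A ≤ -Real.log y + kap S) :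
    y * A ≤ 417 / 1000 * S := by
  have h1 : A ≤ Real.exp (A - 1) := by
    have := Real.add_one_le_exp (A - 1)
    linarith
  have h2 : y * A ≤ y * Real.exp (A - 1) := mul_le_mul_of_nonneg_left h1 hy.le
  have h3 : y * Real.exp (A - 1) ≤ Real.exp (kap S - 1) := by
    calc y * Real.exp (A - 1) ≤ y * Real.exp (-Real.log y + kap S - 1) :=
          mul_le_mul_of_nonneg_left (Real.exp_le_exp.2 (by linarith)) hy.le
      _ = Real.exp (Real.log y) * Real.exp (-Real.log y + kap S - 1) := by rw [Real.exp_log hy]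
      _ = Real.exp (kap S - 1) := by rw [← Real.exp_add]; congr 1; ring
  obtain ⟨v, hv⟩ : ∃ v, v = (343 / 250 : ℝ) / S := ⟨_, rfl⟩
  have hv0 : 0 < v := by rw [hv]; positivity
  have hvS : v * S = 343 / 250 := by
    rw [hv]
    have : S ≠ 0 := by linarith
    field_simp
  have h4 : v ≤ Real.exp (v - 1) := by
    have := Real.add_one_le_exp (v - 1)
    linarith
  have h5 : Real.exp (kap S - 1) * v ≤ Real.exp (-(3 / 5)) := by
    calc Real.exp (kap S - 1) * v ≤ Real.exp (kap S - 1) * Real.exp (v - 1) :=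
          mul_le_mul_of_nonneg_left h4 (Real.exp_pos _).le
      _ = Real.exp (-(3 / 5)) := by
          rw [← Real.exp_add]; congr 1; unfold kap; rw [← hv]; ring
  have h6 := exp_half
  have h7 : y * A * v ≤ 11 / 20 := by
    calc y * A * v ≤ Real.exp (kap S - 1) * v :=
          mul_le_mul_of_nonneg_right (h2.trans h3) hv0.le
      _ ≤ _ := h5.trans h6
  have h8 : y * A * v * S ≤ 11 / 20 * S := mul_le_mul_of_nonneg_right h7 (by linarith)
  have h9 : y * A * v * S = y * A * (343 / 250) := by rw [← hvS]; ring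
  rw [h9] at h8
  linarith

/-- The line `x + y = 1`. -/
theorem lemN (y S : ℝ) (hy : 1 / 2 ≤ y) (hy1 : y ≤ 1) (hS : 1 ≤ S) :
    19 / 25 * (1 - y) + (2 * y - 1) * (-Real.log y + kap S) ≤ 417 / 1000 * S := by
  obtain ⟨v, hv⟩ : ∃ v, v = 2 * y - 1 := ⟨_, rfl⟩
  have hv0 : 0 ≤ v := by linarith
  have hv1 : v ≤ 1 := by linarith
  obtain ⟨t, ht⟩ : ∃ t, t = -Real.log y := ⟨_, rfl⟩
  have hτ : t * (2 + v) ≤ 6932 / 10000 * (2 + v) - 2 * v := by
    have h := Real.le_log_one_add_of_nonneg (x := v) hv0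
    have h2 : Real.log y = Real.log (1 + v) - Real.log 2 := by
      rw [← Real.log_div (by linarith) (by norm_num)]
      congr 1
      rw [hv]; ring
    have h3 := Real.log_two_lt_d9
    rw [div_le_iff₀ (by linarith)] at h
    have h4 : t = Real.log 2 - Real.log (1 + v) := by rw [ht, h2]; ring
    rw [h4]
    nlinarith
  have hk := kap_mul S hS
  rw [← ht, ← hv]
  have e : 1 - y = (1 - v) / 2 := by rw [hv]; ring
  rw [e]
  -- multiply by `S (2 + v)`
  have hgoal : 0 ≤ (417 / 1000 * S - (19 / 25 * ((1 - v) / 2) + v * (t + kap S))) *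
      (S * (2 + v)) := by
    have e2 : (417 / 1000 * S - (19 / 25 * ((1 - v) / 2) + v * (t + kap S))) * (S * (2 + v)) =
        (2 + v) * (417 / 1000 * S ^ 2 - 19 / 50 * (1 - v) * S - v * (kap S * S)) -
          S * v * (t * (2 + v)) := by ring
    rw [e2, hk]
    have h5 : S * v * (t * (2 + v)) ≤ S * v * (6932 / 10000 * (2 + v) - 2 * v) :=
      mul_le_mul_of_nonneg_left hτ (mul_nonneg (by linarith) hv0)
    refine le_trans ?_ (sub_le_sub_left h5 _)
    rcases le_total v (3 / 10) with h | h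
    · obtain ⟨u, hu⟩ : ∃ u, u = S - 1 := ⟨_, rfl⟩
      have hu0 : 0 ≤ u := by linarith
      have hSu : S = 1 + u := by linarith
      rw [hSu]
      have c0 : 0 ≤ 74 / 1000 - 6454 / 10000 * v + 16588 / 10000 * v ^ 2 := by
        nlinarith [sq_nonneg (v - 1 / 5)]
      have c1 : 0 ≤ 908 / 1000 - 29724 / 10000 * v + 2868 / 10000 * v ^ 2 := by
        nlinarith [sq_nonneg v]
      have c2 : 0 ≤ 417 / 1000 * (2 + v) := by linarith
      have e3 : (2 + v) * (417 / 1000 * (1 + u) ^ 2 - 19 / 50 * (1 - v) * (1 + u) -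
          v * (7 / 5 * (1 + u) - 343 / 250)) -
          (1 + u) * v * (6932 / 10000 * (2 + v) - 2 * v) =
          (74 / 1000 - 6454 / 10000 * v + 16588 / 10000 * v ^ 2) +
          (908 / 1000 - 29724 / 10000 * v + 2868 / 10000 * v ^ 2) * u +
          417 / 1000 * (2 + v) * u ^ 2 := by ring
      rw [e3]
      positivity
    · have hB : (76 / 100 + 38064 / 10000 * v - 2868 / 10000 * v ^ 2) ^ 2 ≤
          4 * (417 / 1000 * (2 + v)) * (343 / 250 * v * (2 + v)) := by
        nlinarith [mul_nonneg (sub_nonneg.2 h) (sub_nonneg.2 hv1),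
          mul_nonneg (sub_nonneg.2 h) (sq_nonneg (v - 1 / 2)),
          mul_nonneg (mul_nonneg (sub_nonneg.2 h) (sub_nonneg.2 hv1)) (sq_nonneg v),
          mul_nonneg (sub_nonneg.2 h) (sq_nonneg v), sq_nonneg (v - 1 / 2)]
      have e3 : (2 + v) * (417 / 1000 * S ^ 2 - 19 / 50 * (1 - v) * S -
          v * (7 / 5 * S - 343 / 250)) -
          S * v * (6932 / 10000 * (2 + v) - 2 * v) =
          417 / 1000 * (2 + v) * S ^ 2 -
          (76 / 100 + 38064 / 10000 * v - 2868 / 10000 * v ^ 2) * S +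
          343 / 250 * v * (2 + v) := by ring
      rw [e3]
      obtain ⟨a, ha⟩ : ∃ a, a = 417 / 1000 * (2 + v) := ⟨_, rfl⟩
      obtain ⟨b, hb⟩ : ∃ b, b = 76 / 100 + 38064 / 10000 * v - 2868 / 10000 * v ^ 2 := ⟨_, rfl⟩
      obtain ⟨c, hc⟩ : ∃ c, c = 343 / 250 * v * (2 + v) := ⟨_, rfl⟩
      rw [← ha, ← hb, ← hc] at hB ⊢
      have ha0 : 0 < a := by rw [ha]; linarith
      have : 0 ≤ 4 * a * (a * S ^ 2 - b * S + c) := by
        nlinarith [sq_nonneg (2 * a * S - b)]
      exact (mul_nonneg_iff_of_pos_left (by linarith)).1 this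
  have hpos : 0 < S * (2 + v) := by positivity
  have := (mul_nonneg_iff_of_pos_right hpos).1 hgoal
  linarith

theorem kap_nonneg (S : ℝ) (hS : 1 ≤ S) : 28 / 1000 ≤ kap S := by
  unfold kap
  have : (343 / 250 : ℝ) / S ≤ 343 / 250 := div_le_self (by norm_num) hS
  linarith

theorem amgm (S c : ℝ) (hS : 1 ≤ S) (hc : c ≤ 369 / 1000) :
    c + 39 / 100 * kap S ≤ 417 / 1000 * S := by
  have hk2 := kap_mul S hS
  have h0 : (0 : ℝ) < S := by linarith
  have h8 : 0 ≤ (417 / 1000 * S - (c + 39 / 100 * kap S)) * S := by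
    have e : (417 / 1000 * S - (c + 39 / 100 * kap S)) * S =
      417 / 1000 * S ^ 2 - c * S - 39 / 100 * (kap S * S) := by ring
    rw [e, hk2]
    have h1 : c * S ≤ 369 / 1000 * S := mul_le_mul_of_nonneg_right hc h0.le
    nlinarith [sq_nonneg (S - 11 / 10)]
  have h9 := (mul_nonneg_iff_of_pos_right h0).1 h8
  linarith

/-- First region. -/
theorem star1 (x y S Φ A : ℝ) (hx : 0 < x) (hxy : x ≤ y) (hy : y ≤ 1) (hS : 1 ≤ S)
    (hΦ1 : Φ ≤ 1) (hA1 : A ≤ 1) (hA2 : A ≤ -Real.log y + kap S) (h : x + y < 1) :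
    x * Φ + (y - x) * A ≤ 417 / 1000 * S + 6 / 25 * x := by
  have hy0 : 0 < y := by linarith
  have hLA := lemA y S A hy0 hS hA2
  have h1 : x * Φ ≤ x := by nlinarith
  rcases le_total (19 / 25) A with hA | hA
  · nlinarith
  · rcases le_total y (1 / 2) with hy2 | hy2
    · nlinarith
    · have hN := lemN y S hy2 hy hS
      have h2 : (2 * y - 1) * A ≤ (2 * y - 1) * (-Real.log y + kap S) :=
        mul_le_mul_of_nonneg_left hA2 (by linarith)
      nlinarith

/-- Second region. -/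
theorem star2 (x y S Φ A : ℝ) (hx : 0 < x) (hxy : x ≤ y) (hy : y ≤ 1) (hS : 1 ≤ S)
    (h3 : x * Φ ≤ 147 / 200 * x + 6 / 25 * (1 - y)) (hA : A ≤ 495 / 1000)
    (hA2 : A ≤ -Real.log y + kap S) (h : 1 ≤ x + y) (hx2 : x ≤ 61 / 100) :
    x * Φ + (y - x) * A ≤ 417 / 1000 * S + 6 / 25 * x := by
  have hy0 : 0 < y := by linarith
  have hk1 := kap_le S hS
  rcases le_total y (61 / 100) with hy3 | hy3
  · nlinarith
  · have h4 : x * Φ + (y - x) * A - 6 / 25 * x ≤
        30195 / 100000 + 6 / 25 * (1 - y) + (y - 61 / 100) * A := by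
      nlinarith [mul_nonneg (sub_nonneg.2 hx2) (sub_nonneg.2 hA)]
    have hlog := neg_log_sinh y hy0 hy
    rcases le_total y (9 / 10) with hy4 | hy4
    · have h5 : (y - 61 / 100) * A ≤
          (y - 61 / 100) * ((1 / y - y) / 2 + (28 / 1000 + 1372 / 1000 * (S - 1))) :=
        mul_le_mul_of_nonneg_left (by linarith) (by linarith)
      have h6 : (y - 61 / 100) * (1372 / 1000 * (S - 1)) ≤ 417 / 1000 * (S - 1) := by
        nlinarith
      have h7 : 30195 / 100000 + 6 / 25 * (1 - y) +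
          (y - 61 / 100) * ((1 / y - y) / 2 + 28 / 1000) ≤ 417 / 1000 := by
        have e : (30195 / 100000 + 6 / 25 * (1 - y) +
          (y - 61 / 100) * ((1 / y - y) / 2 + 28 / 1000)) =
          ((30195 / 100000 + 6 / 25 * (1 - y) + (y - 61 / 100) * (28 / 1000)) * (2 * y) +
            (y - 61 / 100) * (1 - y ^ 2)) / (2 * y) := by
          field_simp
          ring
        rw [e, div_le_iff₀ (by linarith)]
        nlinarith [mul_nonneg (sub_nonneg.2 hy3) (sub_nonneg.2 hy4),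
          mul_nonneg hy0.le (sq_nonneg (y - 7 / 10)), sq_nonneg (y - 7 / 10)]
      nlinarith
    · have h5 : -Real.log y ≤ 106 / 1000 := by
        refine hlog.trans ?_
        have : 1 / y ≤ 10 / 9 := by
          rw [div_le_div_iff₀ hy0 (by norm_num)]
          linarith
        linarith
      have h6 : (y - 61 / 100) * A ≤ 39 / 100 * (106 / 1000 + kap S) := by
        have h7 : 0 ≤ 106 / 1000 + kap S := by
          have := kap_nonneg S hS
          linarith
        calc (y - 61 / 100) * A ≤ (y - 61 / 100) * (106 / 1000 + kap S) :=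
              mul_le_mul_of_nonneg_left (by linarith) (by linarith)
          _ ≤ _ := mul_le_mul_of_nonneg_right (by linarith) h7
      have h9 := amgm S (36715 / 100000 + 1 / 1000) hS (by norm_num)
      nlinarith

/-- Third region. -/
theorem star3 (x y S Φ A : ℝ) (hx : 0 < x) (hxy : x ≤ y) (hy : y ≤ 1) (hS : 1 ≤ S)
    (hΦ2 : Φ ≤ -Real.log x - Real.log y)
    (hA2 : A ≤ -Real.log y + kap S) (hx2 : 61 / 100 ≤ x) (hy3 : 69 / 100 ≤ y) :
    x * Φ + (y - x) * A ≤ 417 / 1000 * S + 6 / 25 * x := by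
  have hy0 : 0 < y := by linarith
  have hk1 := kap_le S hS
  have t1 := tangent x (61 / 100) hx (by norm_num)
  have t2 := tangent y (69 / 100) hy0 (by norm_num)
  have l1 := mul_le_mul_of_nonneg_left log61 hx.le
  have l2 := mul_le_mul_of_nonneg_left log69 hy0.le
  have h4 : x * Φ ≤ x * (-Real.log x - Real.log y) := mul_le_mul_of_nonneg_left hΦ2 hx.le
  have h5 : (y - x) * A ≤ (y - x) * (-Real.log y + kap S) :=
    mul_le_mul_of_nonneg_left hA2 (by linarith)
  have e6 : x * (-Real.log x - Real.log y) + (y - x) * (-Real.log y + kap S) =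
      x * (-Real.log x) + y * (-Real.log y) + (y - x) * kap S := by ring
  have h6 : x * Φ + (y - x) * A - 6 / 25 * x ≤
      13 / 10 - 745 / 1000 * x - 626 / 1000 * y + (y - x) * kap S := by
    linarith
  rcases le_total y (9 / 10) with hy4 | hy4
  · have h7 : (y - x) * kap S ≤ (y - x) * (28 / 1000 + 1372 / 1000 * (S - 1)) :=
      mul_le_mul_of_nonneg_left hk1 (by linarith)
    have h8 : (y - x) * (1372 / 1000 * (S - 1)) ≤ 417 / 1000 * (S - 1) := by
      have : (y - x) * (1372 / 1000 * (S - 1)) ≤ 29 / 100 * (1372 / 1000 * (S - 1)) :=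
        mul_le_mul_of_nonneg_right (by linarith) (by linarith)
      linarith
    have e7 : (y - x) * (28 / 1000 + 1372 / 1000 * (S - 1)) =
      28 / 1000 * y - 28 / 1000 * x + (y - x) * (1372 / 1000 * (S - 1)) := by ring
    linarith
  · have h7 : 0 ≤ kap S := by
      have := kap_nonneg S hS
      linarith
    have h8 : (y - x) * kap S ≤ 39 / 100 * kap S :=
      mul_le_mul_of_nonneg_right (by linarith) h7
    have h9 := amgm S (13 / 10 - 745 / 1000 * (61 / 100) - 626 / 1000 * (9 / 10)) hS (by norm_num)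
    linarith

/-- The main inequality. -/
theorem star (x y S Φ A : ℝ) (hx : 0 < x) (hxy : x ≤ y) (hy : y ≤ 1) (hS : 1 ≤ S)
    (hΦ1 : Φ ≤ 1) (hΦ2 : Φ ≤ -Real.log x - Real.log y)
    (hΦ3 : 1 ≤ x + y → x * Φ ≤ 147 / 200 * x + 6 / 25 * (1 - y)) (hA1 : A ≤ 1)
    (hA2 : A ≤ -Real.log y + kap S) :
    x * Φ + (y - x) * A ≤ 417 / 1000 * S + 6 / 25 * x := by
  have hy0 : 0 < y := by linarith
  rcases lt_or_ge (x + y) 1 with h | h
  · exact star1 x y S Φ A hx hxy hy hS hΦ1 hA1 hA2 h
  · have h3 := hΦ3 h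
    have hy2 : 1 / 2 ≤ y := by linarith
    rcases le_total (495 / 1000) A with hA | hA
    · have hN := lemN y S hy2 hy hS
      have h2 : (2 * y - 1) * A ≤ (2 * y - 1) * (-Real.log y + kap S) :=
        mul_le_mul_of_nonneg_left hA2 (by linarith)
      nlinarith [mul_nonneg (sub_nonneg.2 h) (sub_nonneg.2 hA)]
    · rcases le_total x (61 / 100) with hx2 | hx2
      · exact star2 x y S Φ A hx hxy hy hS h3 hA hA2 h hx2
      · rcases le_total y (69 / 100) with hy3 | hy3
        · have h1 : (y - x) * A ≤ (y - x) * (495 / 1000) :=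
            mul_le_mul_of_nonneg_left hA (by linarith)
          nlinarith
        · exact star3 x y S Φ A hx hxy hy hS hΦ2 hA2 hx2 hy3

/-- The uniform inequality. -/
theorem unif (x y S Φ A : ℝ) (hx : 0 < x) (hxy : x ≤ y) (hy : y ≤ 1) (hS : 1 ≤ S)
    (hΦ1 : Φ ≤ 1) (hΦ2 : Φ ≤ -Real.log x - Real.log y)
    (hΦ3 : 1 ≤ x + y → x * Φ ≤ 147 / 200 * x + 6 / 25 * (1 - y)) (hA1 : A ≤ 1)
    (hA2 : A ≤ -Real.log y + kap S) :
    x * Φ + (y - x) * A ≤ 4 / 7 * S := by
  have hy0 : 0 < y := by linarith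
  rcases le_total x (643 / 1000 * S) with h | h
  · have := star x y S Φ A hx hxy hy hS hΦ1 hΦ2 hΦ3 hA1 hA2
    linarith
  · have t1 := tangent x (643 / 1000) hx (by norm_num)
    have t2 := tangent y (643 / 1000) hy0 (by norm_num)
    have l1 := mul_le_mul_of_nonneg_left log643 hx.le
    have l2 := mul_le_mul_of_nonneg_left log643 hy0.le
    have h4 : x * Φ ≤ x * (-Real.log x - Real.log y) := mul_le_mul_of_nonneg_left hΦ2 hx.le
    have h5 : (y - x) * A ≤ (y - x) * (-Real.log y + kap S) :=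
      mul_le_mul_of_nonneg_left hA2 (by linarith)
    have hk1 := kap_le S hS
    have h7 : (y - x) * kap S ≤ (y - x) * (28 / 1000 + 1372 / 1000 * (S - 1)) :=
      mul_le_mul_of_nonneg_left hk1 (by linarith)
    have h6 : x * Φ + (y - x) * A ≤
        1286 / 1000 - 557 / 1000 * (x + y) + (y - x) * (28 / 1000 + 1372 / 1000 * (S - 1)) := by
      nlinarith
    obtain ⟨u, hu⟩ : ∃ u, u = S - 1 := ⟨_, rfl⟩
    obtain ⟨w, hw⟩ : ∃ w, w = y - x := ⟨_, rfl⟩
    have hu0 : 0 ≤ u := by linarith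
    have hw0 : 0 ≤ w := by linarith
    have hw1 : w ≤ 357 / 1000 - 643 / 1000 * u := by linarith
    have hyw : y = x + w := by linarith
    have hSu : S = 1 + u := by linarith
    rw [← hw, hyw, hSu] at h6
    rw [hSu] at h
    rw [hSu]
    have h8 : w * u ≤ (357 / 1000 - 643 / 1000 * u) * u := mul_le_mul_of_nonneg_right hw1 hu0
    nlinarith [sq_nonneg u]

end Pool.Agent.E8helper20.GL
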