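import Pool.Agent.E8helper20.GL.Num

set_option autoImplicit false

/-! The numeric inequalities in the form in which they are used. -/

namespace Pool.Agent.E8helper20.GL

open Real

theorem numFin (Z x y ta tb ρ s m Φ : ℝ) (hs : 0 < s) (hm0 : 0 ≤ m) (hm : 4 * m ≤ 7 * s)
    (hρ : 0 ≤ ρ) (hZ : s + 1 + ρ ≤ Z) (hx : 0 ≤ x) (hxy : x ≤ y) (hy : y ≤ 1) (hta : 0 ≤ ta)
    (htb : 0 ≤ tb) (hxt : x ≤ Real.exp (-ta)) (hyt : y ≤ Real.exp (-tb)) (hΦ1 : Φ ≤ 1)
    (hΦ2 : Φ ≤ ta + tb)
    (hΦ3 : 1 ≤ x + y → x * Φ ≤ 147 / 200 * x + 6 / 25 * (1 - y)) :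
    x / (Z - x) * Φ + (y / (Z - y) - x / (Z - x)) *
        min 1 (tb + (7 / 5 * ρ + 2 / 125 * m) / Z) ≤ (4 / 7) / s ∧
    x / (Z - x) * Φ + (y / (Z - y) - x / (Z - x)) *
        min 1 (tb + (7 / 5 * ρ + 2 / 125 * m) / Z) ≤
      (417 / 1000) / s + 6 / 25 * (x / (Z - x)) := by
  have hsρ : 0 < s + ρ := by linarith
  have hZ0 : 0 < Z := by linarith
  obtain ⟨S, hSd⟩ : ∃ S, S = (s + ρ) / s := ⟨_, rfl⟩
  have hS1 : 1 ≤ S := by rw [hSd, le_div_iff₀ hs]; linarith
  have hκ : (7 / 5 * ρ + 2 / 125 * m) / Z ≤ kap S := by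
    have e : kap S = (7 / 5 * ρ + 7 / 250 * s) / (s + ρ) := by
      unfold kap
      rw [hSd]
      field_simp
      ring
    rw [e, div_le_div_iff₀ hZ0 hsρ]
    have h1 : 7 / 5 * ρ + 2 / 125 * m ≤ 7 / 5 * ρ + 7 / 250 * s := by linarith
    have h2 : 0 ≤ 7 / 5 * ρ + 7 / 250 * s := by positivity
    calc (7 / 5 * ρ + 2 / 125 * m) * (s + ρ) ≤ (7 / 5 * ρ + 7 / 250 * s) * (s + ρ) :=
          mul_le_mul_of_nonneg_right h1 hsρ.le
      _ ≤ (7 / 5 * ρ + 7 / 250 * s) * Z := mul_le_mul_of_nonneg_left (by linarith) h2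
  obtain ⟨A, hAd⟩ : ∃ A, A = min 1 (tb + (7 / 5 * ρ + 2 / 125 * m) / Z) := ⟨_, rfl⟩
  obtain ⟨A', hA'd⟩ : ∃ A', A' = min 1 (tb + kap S) := ⟨_, rfl⟩
  rw [← hAd]
  have hAA' : A ≤ A' := by
    rw [hAd, hA'd]
    exact min_le_min_left _ (by linarith)
  have hk0 := kap_nonneg S hS1
  have hA'0 : 0 ≤ A' := by rw [hA'd]; exact le_min zero_le_one (by linarith)
  have hA'1 : A' ≤ 1 := by rw [hA'd]; exact min_le_left _ _
  have hA'2 : A' ≤ tb + kap S := by rw [hA'd]; exact min_le_right _ _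
  obtain ⟨B1, hB1⟩ : ∃ B1, B1 = x / (Z - x) := ⟨_, rfl⟩
  obtain ⟨B2, hB2⟩ : ∃ B2, B2 = y / (Z - y) := ⟨_, rfl⟩
  rw [← hB1, ← hB2]
  have hZx : s + ρ ≤ Z - x := by linarith
  have hZy : s + ρ ≤ Z - y := by linarith
  have hB10 : 0 ≤ B1 := by rw [hB1]; exact div_nonneg hx (by linarith)
  have hB20 : 0 ≤ B2 := by rw [hB2]; exact div_nonneg (by linarith) (by linarith)
  have hB12 : B1 ≤ B2 := by
    rw [hB1, hB2, div_le_div_iff₀ (by linarith) (by linarith)]
    nlinarith
  have hB1x : B1 ≤ x / (s + ρ) := by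
    rw [hB1]; exact div_le_div_of_nonneg_left hx hsρ hZx
  have hB2y : B2 ≤ y / (s + ρ) := by
    rw [hB2]; exact div_le_div_of_nonneg_left (by linarith) hsρ hZy
  have hSs : S / (s + ρ) = 1 / s := by
    rw [hSd]; field_simp
  have hstep : B1 * Φ + (B2 - B1) * A ≤ B1 * Φ + (B2 - B1) * A' := by
    have := mul_le_mul_of_nonneg_left hAA' (sub_nonneg.2 hB12)
    linarith
  rcases hx.eq_or_lt with hx0 | hx0
  · -- `x = 0`
    have hB10' : B1 = 0 := by rw [hB1, ← hx0]; simp
    rw [hB10'] at hstep ⊢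
    rcases (hx.trans hxy).eq_or_lt with hy0 | hy0
    · have hB20' : B2 = 0 := by rw [hB2, ← hy0]; simp
      rw [hB20']
      constructor
      · have : 0 ≤ (4 / 7) / s := by positivity
        linarith
      · have : 0 ≤ (417 / 1000) / s := by positivity
        linarith
    · have htb2 : tb ≤ -Real.log y := by
        have := Real.log_le_log hy0 hyt
        rw [Real.log_exp] at this
        linarith
      have hLA := lemA y S A' hy0 hS1 (by linarith)
      have h1 : B2 * A' ≤ (417 / 1000) / s := by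
        calc B2 * A' ≤ y / (s + ρ) * A' := mul_le_mul_of_nonneg_right hB2y hA'0
          _ = (y * A') / (s + ρ) := by ring
          _ ≤ (417 / 1000 * S) / (s + ρ) := div_le_div_of_nonneg_right hLA hsρ.le
          _ = 417 / 1000 * (S / (s + ρ)) := by ring
          _ = _ := by rw [hSs]; ring
      have h2 : (417 / 1000) / s ≤ (4 / 7) / s := div_le_div_of_nonneg_right (by norm_num) hs.le
      constructor
      · nlinarith
      · nlinarith
  · have hy0 : 0 < y := by linarith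
    have hta2 : ta ≤ -Real.log x := by
      have := Real.log_le_log hx0 hxt
      rw [Real.log_exp] at this
      linarith
    have htb2 : tb ≤ -Real.log y := by
      have := Real.log_le_log hy0 hyt
      rw [Real.log_exp] at this
      linarith
    have hLA := lemA y S A' hy0 hS1 (by linarith)
    have h1 : B2 * A' ≤ (417 / 1000) / s := by
      calc B2 * A' ≤ y / (s + ρ) * A' := mul_le_mul_of_nonneg_right hB2y hA'0
        _ = (y * A') / (s + ρ) := by ring
        _ ≤ (417 / 1000 * S) / (s + ρ) := div_le_div_of_nonneg_right hLA hsρ.le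
        _ = 417 / 1000 * (S / (s + ρ)) := by ring
        _ = _ := by rw [hSs]; ring
    have h2 : (417 / 1000) / s ≤ (4 / 7) / s := div_le_div_of_nonneg_right (by norm_num) hs.le
    have hst := star x y S Φ A' hx0 hxy hy hS1 hΦ1 (by linarith) hΦ3 hA'1 (by linarith)
    have hun := unif x y S Φ A' hx0 hxy hy hS1 hΦ1 (by linarith) hΦ3 hA'1 (by linarith)
    constructor
    · rcases le_total A' Φ with h | h
      · have e1 : B1 * (Φ - A') ≤ x / (s + ρ) * (Φ - A') :=
          mul_le_mul_of_nonneg_right hB1x (by linarith)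
        have e2 : B2 * A' ≤ y / (s + ρ) * A' := mul_le_mul_of_nonneg_right hB2y hA'0
        have e3 : x / (s + ρ) * (Φ - A') + y / (s + ρ) * A' =
            (x * Φ + (y - x) * A') / (s + ρ) := by ring
        have e4 : (x * Φ + (y - x) * A') / (s + ρ) ≤ (4 / 7 * S) / (s + ρ) :=
          div_le_div_of_nonneg_right hun hsρ.le
        have e5 : (4 / 7 * S) / (s + ρ) = (4 / 7) / s := by
          rw [mul_div_assoc, hSs]; ring
        nlinarith
      · have e1 : B1 * (Φ - A') ≤ 0 := mul_nonpos_of_nonneg_of_nonpos hB10 (by linarith)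
        nlinarith
    · rcases le_total A' (Φ - 6 / 25) with h | h
      · have e1 : B1 * (Φ - 6 / 25 - A') ≤ x / (s + ρ) * (Φ - 6 / 25 - A') :=
          mul_le_mul_of_nonneg_right hB1x (by linarith)
        have e2 : B2 * A' ≤ y / (s + ρ) * A' := mul_le_mul_of_nonneg_right hB2y hA'0
        have e3 : x / (s + ρ) * (Φ - 6 / 25 - A') + y / (s + ρ) * A' =
            (x * Φ + (y - x) * A' - 6 / 25 * x) / (s + ρ) := by ring
        have e4 : (x * Φ + (y - x) * A' - 6 / 25 * x) / (s + ρ) ≤ (417 / 1000 * S) / (s + ρ) :=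
          div_le_div_of_nonneg_right (by linarith) hsρ.le
        have e5 : (417 / 1000 * S) / (s + ρ) = (417 / 1000) / s := by
          rw [mul_div_assoc, hSs]; ring
        nlinarith
      · have e1 : B1 * (Φ - 6 / 25 - A') ≤ 0 :=
          mul_nonpos_of_nonneg_of_nonpos hB10 (by linarith)
        nlinarith

end Pool.Agent.E8helper20.GL
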