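import Pool.Agent.W645.SE.Shift

set_option autoImplicit false
set_option linter.unusedSectionVars false
set_option linter.unusedVariables false

/-! A sharper bound for the covariance with the number of unused colours. -/

namespace Pool.Agent.E8helper20.GL

open Finset Pool.Agent.H983R2.GC Pool.Agent.W341.SE Pool.Agent.W645.SE.Shift

theorem neg_log_le (w : ℝ) (hw : 0 < w) (hw1 : w ≤ 1) :
    w * (-Real.log w) ≤ (1 - w) - (1 - w) ^ 2 / 2 := by
  have h1 : 0 ≤ Real.log w⁻¹ := Real.log_nonneg ((one_le_inv₀ hw).2 hw1)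
  have h2 := Real.self_le_sinh_iff.2 h1
  rw [Real.sinh_log (inv_pos.2 hw), inv_inv, Real.log_inv] at h2
  have h3 := mul_le_mul_of_nonneg_left h2 hw.le
  have h4 : w * ((w⁻¹ - w) / 2) = (1 - w) - (1 - w) ^ 2 / 2 := by
    field_simp
    ring
  linarith

/-- One-variable estimate. -/
theorem pw (P : ℝ) (hP0 : 0 ≤ P) (hP1 : P ≤ 1) :
    ∃ l : ℝ, (∀ X : ℝ, 0 ≤ X → X ≤ 1 → |X - P| / 2 + (X - X ^ 2 / 2) ≤ P / 2 + l * X) ∧
      P / 2 + l * P ≤ 7 / 5 * P + 2 / 125 := by
  rcases le_total P (1 / 2) with h | h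
  · obtain ⟨u, hu⟩ : ∃ u, u = Real.sqrt (2 * P) := ⟨_, rfl⟩
    have hu0 : 0 ≤ u := by rw [hu]; exact Real.sqrt_nonneg _
    have hu2 : u ^ 2 = 2 * P := by rw [hu]; exact Real.sq_sqrt (by linarith)
    have hu1 : u ≤ 1 := by nlinarith
    refine ⟨3 / 2 - u, ?_, ?_⟩
    · intro X hX0 hX1
      rcases le_total P X with h1 | h1
      · rw [abs_of_nonneg (by linarith)]
        nlinarith [sq_nonneg (X - u)]
      · rw [abs_of_nonpos (by linarith)]
        nlinarith [mul_nonneg hX0 (sub_nonneg.2 hu1), sq_nonneg X]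
    · have e : P = u ^ 2 / 2 := by linarith
      rw [e]
      nlinarith [mul_nonneg (sq_nonneg (u - 2 / 5)) (show (0 : ℝ) ≤ 2 * u + 2 / 5 by linarith)]
  · refine ⟨1 / 2, ?_, by linarith⟩
    intro X hX0 hX1
    rcases le_total P X with h1 | h1
    · rw [abs_of_nonneg (by linarith)]
      nlinarith [sq_nonneg (X - 1)]
    · rw [abs_of_nonpos (by linarith)]
      nlinarith [sq_nonneg X]

theorem core {ι : Type} (I : Finset ι) (p X M E : ι → ℝ) (K m : ℝ) (hK : 0 ≤ K)
    (hp : ∀ c ∈ I, 0 ≤ p c) (hX0 : ∀ c ∈ I, 0 ≤ X c) (hX1 : ∀ c ∈ I, X c ≤ 1)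
    (hM : ∀ c ∈ I, ∀ d ∈ I, |M c - M d| ≤ K)
    (hE : ∀ c ∈ I, |E c| ≤ K * (p c * (X c - X c ^ 2 / 2)))
    (hW : 0 < ∑ c ∈ I, p c) (hm : m * ∑ c ∈ I, p c = ∑ c ∈ I, p c * M c) :
    |∑ c ∈ I, (p c * X c * (M c - m) + E c)| ≤
      K * (7 / 5 * ∑ c ∈ I, p c * X c + 2 / 125 * ∑ c ∈ I, p c) := by
  obtain ⟨W, hWd⟩ : ∃ W, W = ∑ c ∈ I, p c := ⟨_, rfl⟩
  obtain ⟨P, hPd⟩ : ∃ P, P = (∑ c ∈ I, p c * X c) / W := ⟨_, rfl⟩
  rw [← hWd] at hW hm ⊢
  have hPW : ∑ c ∈ I, p c * X c = P * W := by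
    rw [hPd]; field_simp
  have hS0 : 0 ≤ ∑ c ∈ I, p c * X c :=
    Finset.sum_nonneg fun c hc => mul_nonneg (hp c hc) (hX0 c hc)
  have hS1 : ∑ c ∈ I, p c * X c ≤ W := by
    rw [hWd]
    exact Finset.sum_le_sum fun c hc => by nlinarith [hp c hc, hX1 c hc]
  have hP0 : 0 ≤ P := by rw [hPd]; exact div_nonneg hS0 hW.le
  have hP1 : P ≤ 1 := by rw [hPd, div_le_one hW]; exact hS1
  obtain ⟨l, hl, hl2⟩ := pw P hP0 hP1
  -- the minimum of `M`
  have hne : I.Nonempty := by
    rcases I.eq_empty_or_nonempty with h | h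
    · subst h; simp at hWd; linarith
    · exact h
  obtain ⟨c₀, hc₀, hmin⟩ := Finset.exists_min_image I M hne
  obtain ⟨a, ha⟩ : ∃ a, a = M c₀ + K / 2 := ⟨_, rfl⟩
  have hMa : ∀ c ∈ I, |M c - a| ≤ K / 2 := by
    intro c hc
    have h1 := hmin c hc
    have h2 := (le_abs_self _).trans (hM c hc c₀ hc₀)
    rw [abs_le, ha]
    constructor <;> linarith
  have e1 : ∑ c ∈ I, (p c * X c * (M c - m) + E c) =
      ∑ c ∈ I, (p c * (X c - P) * (M c - a) + E c) := by
    rw [Finset.sum_add_distrib, Finset.sum_add_distrib]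
    congr 1
    have h1 : ∑ c ∈ I, p c * X c * (M c - m) - ∑ c ∈ I, p c * (X c - P) * (M c - a) =
        P * ∑ c ∈ I, p c * M c + (a - m) * ∑ c ∈ I, p c * X c - a * P * ∑ c ∈ I, p c := by
      rw [← Finset.sum_sub_distrib, Finset.mul_sum, Finset.mul_sum, Finset.mul_sum,
        ← Finset.sum_add_distrib, ← Finset.sum_sub_distrib]
      exact Finset.sum_congr rfl fun c _ => by ring
    rw [← hm, hPW, ← hWd] at h1
    have h2 : P * (m * W) + (a - m) * (P * W) - a * P * W = 0 := by ring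
    linarith
  rw [e1]
  have e2 : ∀ c ∈ I, |p c * (X c - P) * (M c - a) + E c| ≤ K * (p c * (P / 2 + l * X c)) := by
    intro c hc
    have h1 : |p c * (X c - P) * (M c - a)| ≤ p c * |X c - P| * (K / 2) := by
      rw [abs_mul, abs_mul, abs_of_nonneg (hp c hc)]
      exact mul_le_mul_of_nonneg_left (hMa c hc) (mul_nonneg (hp c hc) (abs_nonneg _))
    have h2 := hE c hc
    have h3 := mul_le_mul_of_nonneg_left (mul_le_mul_of_nonneg_left (hl (X c) (hX0 c hc) (hX1 c hc))
      (hp c hc)) hK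
    refine (abs_add_le _ _).trans ?_
    calc _ ≤ p c * |X c - P| * (K / 2) + K * (p c * (X c - X c ^ 2 / 2)) := add_le_add h1 h2
      _ = K * (p c * (|X c - P| / 2 + (X c - X c ^ 2 / 2))) := by ring
      _ ≤ _ := h3
  refine (Finset.abs_sum_le_sum_abs _ _).trans ((Finset.sum_le_sum e2).trans ?_)
  rw [← Finset.mul_sum]
  refine mul_le_mul_of_nonneg_left ?_ hK
  have e3 : ∑ c ∈ I, p c * (P / 2 + l * X c) = (P / 2 + l * P) * W := by
    have : ∑ c ∈ I, p c * (P / 2 + l * X c) =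
        P / 2 * ∑ c ∈ I, p c + l * ∑ c ∈ I, p c * X c := by
      rw [Finset.mul_sum, Finset.mul_sum, ← Finset.sum_add_distrib]
      exact Finset.sum_congr rfl fun c _ => by ring
    rw [this, hPW, ← hWd]
    ring
  rw [e3, hPW]
  nlinarith

variable {V C : Type} [Fintype V] [DecidableEq V] [Fintype C] [DecidableEq C]

/-- one vertex -/
theorem step (G : SimpleGraph V) (c0 : C) (s Δ n : ℕ) (D : ℝ) (hs : 1 ≤ s) (hD0 : 0 ≤ D)
    (hD : DB G c0 s Δ n D) (S R : Finset V) (L : V → Finset C) (Lf : Finset C) (g : V)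
    (F : (V → C) → ℝ) (hgS : g ∉ S) (hg : g ∈ R) (hSR : S ⊆ R)
    (hΔ : (nb G R g).card ≤ Δ - 1) (hSΔ : ∀ w ∈ S, (nb G R w).card ≤ Δ - 1)
    (hn : R.card ≤ n + 1) (hL : Sl G s R L) (hLS : SlP G s R S L) (hF : Lip R F) :
    |∑ σ ∈ Col G c0 R L, ee S Lf g σ * (F σ - EE G c0 R L F)| ≤
      (1 + D) * (7 / 5 * (∑ σ ∈ Col G c0 R L, ee S Lf g σ) +
        2 / 125 * ((Col G c0 R L).card : ℝ)) := by
  obtain ⟨m, hmd⟩ : ∃ m, m = EE G c0 R L F := ⟨_, rfl⟩
  rw [← hmd]
  obtain ⟨p, hpd⟩ : ∃ p : C → ℝ, p = fun c =>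
      ((Col G c0 (R.erase g) (era L (nb G R g) c)).card : ℝ) := ⟨_, rfl⟩
  obtain ⟨Mf, hMd⟩ : ∃ Mf : C → ℝ, Mf = fun c =>
      EE G c0 (R.erase g) (era L (nb G R g) c) (fun τ => F (Function.update τ g c)) := ⟨_, rfl⟩
  obtain ⟨A, hAd⟩ : ∃ A : C → ℝ, A = fun c => ∑ τ ∈ Col G c0 (R.erase g) (era L (nb G R g) c),
      ee S Lf g (Function.update τ g c) := ⟨_, rfl⟩
  obtain ⟨B, hBd⟩ : ∃ B : C → ℝ, B = fun c => ∑ τ ∈ Col G c0 (R.erase g) (era L (nb G R g) c),
      ee S Lf g (Function.update τ g c) * (F (Function.update τ g c) - m) := ⟨_, rfl⟩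
  have hpin : ∀ c, Sl G s (R.erase g) (era L (nb G R g) c) := fun c => Sl_pin G s R L g c hg hL
  have hp : ∀ c, 0 < p c := by
    intro c
    have h := Finset.card_pos.mpr (col_nonempty G c0 _ _ (Sl_mono G hs _ _ (hpin c)))
    rw [hpd]
    show (0 : ℝ) < ((Col G c0 (R.erase g) (era L (nb G R g) c)).card : ℝ)
    exact_mod_cast h
  have hcard : ((Col G c0 R L).card : ℝ) = ∑ c ∈ L g, p c := by
    rw [hpd]; exact card_split G c0 R L g hg
  have hsumA : ∑ σ ∈ Col G c0 R L, ee S Lf g σ = ∑ c ∈ L g, A c := by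
    rw [hAd]; exact sum_split G c0 R L g hg (fun σ => ee S Lf g σ)
  have hsumB : ∑ σ ∈ Col G c0 R L, ee S Lf g σ * (F σ - m) = ∑ c ∈ L g, B c := by
    rw [hBd]; exact sum_split G c0 R L g hg (fun σ => ee S Lf g σ * (F σ - m))
  have hne : (Col G c0 R L).Nonempty := col_nonempty G c0 R L (Sl_mono G hs R L hL)
  have hZ : (0 : ℝ) < (Col G c0 R L).card := by exact_mod_cast Finset.card_pos.mpr hne
  have hmW : m * ∑ c ∈ L g, p c = ∑ c ∈ L g, p c * Mf c := by
    rw [← hcard, mul_comm, hmd]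
    unfold EE
    rw [rem_card_mul, sum_split G c0 R L g hg F]
    refine Finset.sum_congr rfl fun d _ => ?_
    rw [hpd, hMd]
    unfold EE
    rw [rem_card_mul]
  -- bounds for one colour
  have key : ∀ c, 0 ≤ A c ∧ A c ≤ p c ∧
      |B c - A c * (Mf c - m)| ≤ (1 + D) * (p c * (A c / p c - (A c / p c) ^ 2 / 2)) := by
    intro c
    by_cases hc : c ∈ Lf
    · set R1 := R.erase g with hR1
      set L1 := era L (nb G R g) c with hL1
      set H : (V → C) → ℝ := fun τ => F (Function.update τ g c) with hH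
      have he : ∀ τ : V → C, ee S Lf g (Function.update τ g c) =
          1 - (if Kc S c τ = 0 then 1 else 0) := by
        intro τ
        unfold ee
        rw [Function.update_self, Kc_update S g hgS]
        by_cases h : Kc S c τ = 0
        · simp [h, hc]
        · simp [h]
      have hSR1 : S ⊆ R1 := fun w hw => Finset.mem_erase.mpr ⟨fun h => hgS (h ▸ hw), hSR hw⟩
      have hLS1 : SlP G s R1 S L1 := rem_SlP_pin G s R S L g c hg hLS
      have hrem := seq_removal G c0 s Δ n D hs hD0 hD S R1 L1 c H hSR1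
        (fun w hw => (card_nb_erase_le G R g w).trans (hSΔ w hw))
        (by rw [hR1]; have := Finset.card_erase_le (s := R) (a := g); omega) (hpin c) hLS1
        (Lip_update R F hF g c)
      have hne' : (Col G c0 R1 (era L1 S c)).Nonempty :=
        col_nonempty G c0 _ _ (Sl_mono G hs _ _ (Sl_era G s R1 S L1 c (hpin c) hLS1))
      have hZ' : (0 : ℝ) < (Col G c0 R1 (era L1 S c)).card := by
        exact_mod_cast Finset.card_pos.mpr hne'
      have hfil : ∀ K : (V → C) → ℝ, ∑ τ ∈ Col G c0 R1 L1,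
          (if Kc S c τ = 0 then (1 : ℝ) else 0) * K τ = ∑ τ ∈ Col G c0 R1 (era L1 S c), K τ := by
        intro K
        rw [col_era G c0 R1 S hSR1 L1 c, Finset.sum_filter]
        refine Finset.sum_congr rfl fun τ _ => ?_
        split_ifs <;> simp
      have hA : A c = ((Col G c0 R1 L1).card : ℝ) - ((Col G c0 R1 (era L1 S c)).card : ℝ) := by
        rw [hAd]
        simp only [he]
        rw [Finset.sum_sub_distrib, Finset.sum_const, nsmul_eq_mul, mul_one]
        have := hfil (fun _ => 1)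
        simp only [mul_one] at this
        rw [this, Finset.sum_const, nsmul_eq_mul, mul_one]
      have hB : B c = ((Col G c0 R1 L1).card : ℝ) * (EE G c0 R1 L1 H - m) -
          ((Col G c0 R1 (era L1 S c)).card : ℝ) * (EE G c0 R1 (era L1 S c) H - m) := by
        rw [hBd]
        simp only [he, sub_mul, one_mul]
        rw [Finset.sum_sub_distrib, hfil (fun τ => F (Function.update τ g c) - m)]
        have h1 := sum_EE G c0 R1 L1 H m
        have h2 := sum_EE G c0 R1 (era L1 S c) H m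
        rw [← h1, ← h2]
      have hpc : p c = ((Col G c0 R1 L1).card : ℝ) := by rw [hpd]
      have hMc : Mf c = EE G c0 R1 L1 H := by rw [hMd]
      have hpos := hp c
      set Z1 : ℝ := ((Col G c0 R1 L1).card : ℝ) with hZ1
      set Z2 : ℝ := ((Col G c0 R1 (era L1 S c)).card : ℝ) with hZ2
      set m' := EE G c0 R1 (era L1 S c) H with hm'
      rw [← hMc] at hB hrem
      have hZle : Z2 ≤ Z1 := by
        rw [hZ1, hZ2, col_era G c0 R1 S hSR1 L1 c]
        exact_mod_cast Finset.card_filter_le _ _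
      have hZ1p : 0 < Z1 := by rw [hpc] at hpos; exact hpos
      have hzz : zz G c0 R1 S L1 c = Z2 / Z1 := rfl
      rw [hzz] at hrem
      refine ⟨by rw [hA]; linarith, by rw [hA, hpc]; linarith, ?_⟩
      have e1 : B c - A c * (Mf c - m) = Z2 * (Mf c - m') := by
        rw [hB, hA]; ring
      rw [e1, hA, hpc, abs_mul, abs_of_pos hZ']
      have hw := neg_log_le (Z2 / Z1) (div_pos hZ' hZ1p) ((div_le_one hZ1p).2 hZle)
      have e2 : (Z1 - Z2) / Z1 = 1 - Z2 / Z1 := by field_simp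
      rw [e2]
      calc Z2 * |Mf c - m'| ≤ Z2 * ((1 + D) * (-Real.log (Z2 / Z1))) :=
            mul_le_mul_of_nonneg_left hrem hZ'.le
        _ = (1 + D) * (Z1 * (Z2 / Z1 * (-Real.log (Z2 / Z1)))) := by
            field_simp
        _ ≤ (1 + D) * (Z1 * ((1 - Z2 / Z1) - (1 - Z2 / Z1) ^ 2 / 2)) :=
            mul_le_mul_of_nonneg_left (mul_le_mul_of_nonneg_left hw hZ1p.le) (by linarith)
    · have he : ∀ τ : V → C, ee S Lf g (Function.update τ g c) = 1 := by
        intro τ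
        unfold ee
        rw [Function.update_self, if_neg (fun h => hc h.1)]
      have hA : A c = p c := by
        rw [hAd, hpd]
        simp only [he]
        rw [Finset.sum_const, nsmul_eq_mul, mul_one]
      have hB : B c = p c * (Mf c - m) := by
        rw [hBd, hpd, hMd]
        simp only [he, one_mul]
        exact sum_EE G c0 _ _ _ m
      refine ⟨by rw [hA]; exact (hp c).le, by rw [hA], ?_⟩
      rw [hB, hA, sub_self, abs_zero, div_self (hp c).ne']
      have := hp c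
      have : 0 ≤ 1 + D := by linarith
      have h2 : (0 : ℝ) ≤ p c * (1 - 1 ^ 2 / 2) := by nlinarith [hp c]
      exact mul_nonneg this h2
  have hX : ∀ c, p c * (A c / p c) = A c := by
    intro c
    have := (hp c).ne'
    field_simp
  have hcore := core (L g) p (fun c => A c / p c) Mf (fun c => B c - A c * (Mf c - m)) (1 + D) m
    (by linarith) (fun c _ => (hp c).le) (fun c _ => div_nonneg (key c).1 (hp c).le)
    (fun c _ => (div_le_one (hp c)).2 (key c).2.1)
    (fun c _ d _ => by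
      rw [hMd]
      exact hstep G c0 s Δ n D hD R L g c d F hg hΔ hn hL hF)
    (fun c _ => (key c).2.2) (by rw [← hcard]; exact hZ) hmW
  simp only [hX] at hcore
  rw [hsumB, hsumA, hcard]
  refine le_trans (le_of_eq ?_) hcore
  congr 1
  exact Finset.sum_congr rfl fun c _ => by ring

/-- The covariance bound. -/
theorem shift (G : SimpleGraph V) (c0 : C) (s Δ n : ℕ) (D : ℝ) (hs : 1 ≤ s) (hD0 : 0 ≤ D)
    (hD : DB G c0 s Δ n D) (S R : Finset V) (L : V → Finset C) (Lf : Finset C)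
    (F : (V → C) → ℝ) (hSR : S ⊆ R) (hSΔ : ∀ g ∈ S, (nb G R g).card ≤ Δ - 1)
    (hn : R.card ≤ n + 1) (hL : Sl G s R L) (hLS : SlP G s R S L) (hF : Lip R F) :
    |EE G c0 R L (fun σ => (Nf S Lf σ : ℝ) * F σ) -
        EE G c0 R L (fun σ => (Nf S Lf σ : ℝ)) * EE G c0 R L F| ≤
      (1 + D) * (7 / 5 * (EE G c0 R L (fun σ => (Nf S Lf σ : ℝ)) -
        ((Lf.card : ℝ) - (S.card : ℝ))) + 2 / 125 * (S.card : ℝ)) := by
  have hne : (Col G c0 R L).Nonempty := col_nonempty G c0 R L (Sl_mono G hs R L hL)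
  have hZ : (0 : ℝ) < (Col G c0 R L).card := by exact_mod_cast Finset.card_pos.mpr hne
  set m := EE G c0 R L F with hm
  set Z : ℝ := ((Col G c0 R L).card : ℝ) with hZdef
  have hzero : ∑ σ ∈ Col G c0 R L, (F σ - m) = 0 := by
    rw [sum_EE, ← hm, sub_self, mul_zero]
  have key : ∀ S' : Finset V, S' ⊆ S →
      |∑ σ ∈ Col G c0 R L, (Nf S' Lf σ : ℝ) * (F σ - m)| ≤
        (1 + D) * (7 / 5 * ((∑ σ ∈ Col G c0 R L, (Nf S' Lf σ : ℝ)) -
          Z * ((Lf.card : ℝ) - (S'.card : ℝ))) + 2 / 125 * (Z * (S'.card : ℝ))) := by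
    intro S'
    induction S' using Finset.induction_on with
    | empty =>
      intro _
      have h1 : ∀ σ : V → C, (Nf (∅ : Finset V) Lf σ : ℝ) = Lf.card := by
        intro σ
        unfold Nf Kc
        simp
      simp only [h1]
      rw [← Finset.mul_sum, hzero, mul_zero, abs_zero, Finset.sum_const, nsmul_eq_mul, ← hZdef]
      simp
    | insert g S' hgS ih =>
      intro hS'
      have hSS : S' ⊆ S := fun w hw => hS' (Finset.mem_insert_of_mem hw)
      have hgS0 : g ∈ S := hS' (Finset.mem_insert_self g S')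
      have ih' := ih hSS
      have h1 : ∑ σ ∈ Col G c0 R L, (Nf (insert g S') Lf σ : ℝ) * (F σ - m) =
          ∑ σ ∈ Col G c0 R L, (Nf S' Lf σ : ℝ) * (F σ - m) +
          ∑ σ ∈ Col G c0 R L, ee S' Lf g σ * (F σ - m) := by
        have h2 : ∀ σ : V → C, (Nf (insert g S') Lf σ : ℝ) * (F σ - m) =
            (Nf S' Lf σ : ℝ) * (F σ - m) + ee S' Lf g σ * (F σ - m) - (F σ - m) := by
          intro σ
          rw [Nf_insert S' Lf g σ hgS]
          ring
        simp only [h2]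
        rw [Finset.sum_sub_distrib, Finset.sum_add_distrib, hzero, sub_zero]
      have h3 : ∑ σ ∈ Col G c0 R L, (Nf (insert g S') Lf σ : ℝ) =
          ∑ σ ∈ Col G c0 R L, (Nf S' Lf σ : ℝ) - Z + ∑ σ ∈ Col G c0 R L, ee S' Lf g σ := by
        simp only [Nf_insert S' Lf g _ hgS]
        rw [Finset.sum_add_distrib, Finset.sum_sub_distrib, Finset.sum_const, nsmul_eq_mul,
          mul_one]
      have h4 := step G c0 s Δ n D hs hD0 hD S' R L Lf g F hgS (hSR hgS0) (hSS.trans hSR)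
        (hSΔ g hgS0) (fun w hw => hSΔ w (hSS hw)) hn hL (fun w hw => hLS w (hSS hw)) hF
      rw [← hm, ← hZdef] at h4
      rw [h1, h3, card_insert_of_notMem hgS]
      push_cast
      refine (abs_add_le _ _).trans ((add_le_add ih' h4).trans (le_of_eq ?_))
      ring
  have hk := key S (Finset.Subset.refl S)
  have e1 : EE G c0 R L (fun σ => (Nf S Lf σ : ℝ) * F σ) -
      EE G c0 R L (fun σ => (Nf S Lf σ : ℝ)) * m =
      (∑ σ ∈ Col G c0 R L, (Nf S Lf σ : ℝ) * (F σ - m)) / Z := by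
    unfold EE
    rw [div_mul_eq_mul_div, ← sub_div]
    congr 1
    rw [Finset.sum_mul, ← Finset.sum_sub_distrib]
    exact Finset.sum_congr rfl fun σ _ => by ring
  rw [e1, abs_div, abs_of_pos hZ, div_le_iff₀ hZ]
  refine hk.trans (le_of_eq ?_)
  unfold EE
  rw [← hZdef]
  field_simp

end Pool.Agent.E8helper20.GL
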