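import Pool.Agent.W341.SE.Swap
import Pool.Agent.E8helper20.GL.NumFin
import Pool.Agent.E8helper20.GL.Alg
import Pool.Agent.E8helper20.GL.Shift
import Pool.Agent.E8helper20.GL.Interp

set_option autoImplicit false
set_option linter.unusedSectionVars false
set_option linter.unusedVariables false

/-! The swap bound. -/

namespace Pool.Agent.E8helper20.GL

open Finset Pool.Agent.H983R2.GC Pool.Agent.W341.SE

variable {V C : Type} [Fintype V] [DecidableEq V] [Fintype C] [DecidableEq C]

/-- Refined bound for a pair of colours which are used by few colourings of the neighbours. -/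
def DR (G : SimpleGraph V) (c0 : C) (s Δ n : ℕ) (K : ℝ) : Prop :=
  ∀ (R : Finset V) (L : V → Finset C) (v : V) (b c : C) (F : (V → C) → ℝ),
    R.card ≤ n → v ∉ R → (nb G R v).card ≤ Δ - 1 → Sl G s R L → SlP G s R (nb G R v) L →
    Lip R F → b ≠ c → zz G c0 R (nb G R v) L b ≤ zz G c0 R (nb G R v) L c →
    1 ≤ zz G c0 R (nb G R v) L b + zz G c0 R (nb G R v) L c →
    zz G c0 R (nb G R v) L b *
      |EE G c0 R (era L (nb G R v) b) F - EE G c0 R (era L (nb G R v) c) F| ≤
      K * (147 / 200 * zz G c0 R (nb G R v) L b +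
        6 / 25 * (1 - zz G c0 R (nb G R v) L c))

/-- Counts in terms of the fractions. -/
theorem nc_era_single (G : SimpleGraph V) (c0 : C) (R : Finset V) (M : V → Finset C) (f : V)
    (hf : f ∈ R) (a : C) (hne : 0 < ((Col G c0 (R.erase f) M).card : ℝ)) :
    nc G c0 R (era M {f} a) = ((Col G c0 (R.erase f) M).card : ℝ) *
      ((∑ c ∈ M f, zr G c0 (R.erase f) (nb G (R.erase f) f) M (M f) c) -
        zr G c0 (R.erase f) (nb G (R.erase f) f) M (M f) a) := by
  have hf1 : era M {f} a f = (M f).erase a := by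
    unfold era
    rw [if_pos (mem_singleton_self f)]
  have hcol : ∀ c, Col G c0 (R.erase f) (era (era M {f} a) (nb G R f) c)
      = Col G c0 (R.erase f) (era M (nb G R f) c) := by
    intro c
    refine Col_congr G c0 _ _ _ (fun w hw => ?_)
    have hwf : w ≠ f := (mem_erase.1 hw).1
    unfold era
    simp [hwf]
  unfold nc
  rw [card_split G c0 R _ f hf, hf1]
  have h1 : ∑ c ∈ (M f).erase a, ((Col G c0 (R.erase f)
      (era (era M {f} a) (nb G R f) c)).card : ℝ) =
      ∑ c ∈ (M f).erase a, ((Col G c0 (R.erase f) M).card : ℝ) *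
        zr G c0 (R.erase f) (nb G (R.erase f) f) M (M f) c := by
    refine Finset.sum_congr rfl (fun c hc => ?_)
    have hcM : c ∈ M f := mem_of_mem_erase hc
    rw [hcol c]
    unfold zr zz
    rw [if_pos hcM, nb_erase_self, mul_div_cancel₀ _ hne.ne']
  rw [h1, ← Finset.mul_sum]
  congr 1
  by_cases ha : a ∈ M f
  · rw [← Finset.add_sum_erase _ _ ha]
    ring
  · rw [erase_eq_of_notMem ha]
    unfold zr
    rw [if_neg ha]
    ring

theorem nc_total (G : SimpleGraph V) (c0 : C) (R : Finset V) (M : V → Finset C) (f : V)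
    (hf : f ∈ R) (hne : 0 < ((Col G c0 (R.erase f) M).card : ℝ)) :
    nc G c0 R M = ((Col G c0 (R.erase f) M).card : ℝ) *
      (∑ c ∈ M f, zr G c0 (R.erase f) (nb G (R.erase f) f) M (M f) c) := by
  unfold nc
  rw [card_split G c0 R _ f hf, Finset.mul_sum]
  refine Finset.sum_congr rfl (fun c hc => ?_)
  unfold zr zz
  rw [if_pos hc, nb_erase_self, mul_div_cancel₀ _ hne.ne']

theorem swapR (G : SimpleGraph V) (c0 : C) (s Δ n : ℕ) (D : ℝ) (hs : 2 ≤ s)
    (hΔs : 4 * (Δ - 1) ≤ 7 * s) (hD0 : 0 ≤ D)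
    (hG : ∀ v, (nb G univ v).card ≤ Δ) (hD : DB G c0 s Δ n D) (hDR : DR G c0 s Δ n (1 + D))
    (R : Finset V) (M : V → Finset C) (v f : V) (a b : C) (F : (V → C) → ℝ) (hv : v ∉ R)
    (hf : f ∈ R) (hvf : G.Adj v f) (hn : R.card ≤ n + 1) (hL : Sl G s R M)
    (hLf : (nb G R f).card + s + 1 ≤ (M f).card) (hF : Lip R F) (hab : a ≠ b) :
    |EE G c0 R (era M {f} a) F - EE G c0 R (era M {f} b) F| ≤ 1 + (1 + D) * ((4 / 7) / s) ∧
    |EE G c0 R (era M {f} a) F - EE G c0 R (era M {f} b) F| ≤
      (1 + (1 + D) * ((417 / 1000) / s)) + ((1 + D) * (6 / 25)) *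
        ((nc G c0 R M - max (nc G c0 R (era M {f} a)) (nc G c0 R (era M {f} b))) /
          max (nc G c0 R (era M {f} a)) (nc G c0 R (era M {f} b))) := by
  have hSl' : Sl G s (R.erase f) M := Sl_del G s R M f hf hL
  have hSlP' : SlP G s (R.erase f) (nb G (R.erase f) f) M := SlP_del G s R M f hf hL
  have hne : 0 < ((Col G c0 (R.erase f) M).card : ℝ) := by
    exact_mod_cast card_pos.2 (col_nonempty G c0 _ _ (Sl_mono G (by omega) _ _ hSl'))
  have hne'' : ∀ c, 0 < ((Col G c0 (R.erase f) (era M (nb G (R.erase f) f) c)).card : ℝ) := by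
    intro c
    exact_mod_cast card_pos.2 (col_nonempty G c0 _ _ (Sl_mono G (by omega) _ _
      (Sl_era G s _ _ _ c hSl' hSlP')))
  have hne' : ∀ c, 0 < ((Col G c0 (R.erase f) (era M (nb G R f) c)).card : ℝ) := by
    intro c
    rw [← nb_erase_self]
    exact hne'' c
  have hsub : nb G (R.erase f) f ⊆ R.erase f := nb_subset _ _ _
  have hcard'' : (R.erase f).card ≤ n := by
    rw [card_erase_of_mem hf]; omega
  have hcard' : (R.erase f).card ≤ n + 1 := by omega
  have hSΔ : ∀ g ∈ nb G (R.erase f) f, (nb G (R.erase f) g).card ≤ Δ - 1 := by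
    intro g hg
    exact nb_card_le_of_nbr G Δ hG _ f g (by simp) ((mem_nb _ _ _ _).1 hg).2
  have hfΔ : (nb G (R.erase f) f).card ≤ Δ - 1 := by
    rw [nb_erase_self]
    exact nb_card_le_of_nbr G Δ hG _ v f hv hvf
  have hk : ((nb G (R.erase f) f).card : ℝ) + s + 1 ≤ ((M f).card : ℝ) := by
    rw [nb_erase_self]
    exact_mod_cast hLf
  have hs' : (2 : ℝ) ≤ (s : ℝ) := by exact_mod_cast hs
  set z := zr G c0 (R.erase f) (nb G (R.erase f) f) M (M f) with hz
  set t := tr G c0 (R.erase f) (nb G (R.erase f) f) M with ht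
  set Fc : C → ℝ := fun c => EE G c0 (R.erase f) (era M (nb G R f) c)
    (fun τ => F (Function.update τ f c)) with hFc
  have hzn : ∀ c, 0 ≤ z c := by
    intro c
    rw [hz]
    unfold zr zz
    split_ifs
    · exact div_nonneg (Nat.cast_nonneg _) (Nat.cast_nonneg _)
    · exact le_rfl
  have hz1 : ∀ c, z c ≤ 1 := by
    intro c
    rw [hz]
    unfold zr
    split_ifs
    · exact zz_le_one G c0 _ _ hsub M c
    · exact zero_le_one
  have hz0 : ∀ c, c ∉ M f → z c = 0 := by
    intro c hc
    rw [hz]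
    unfold zr
    rw [if_neg hc]
  have hzz : ∀ c, c ∈ M f → z c = zz G c0 (R.erase f) (nb G (R.erase f) f) M c := by
    intro c hc
    rw [hz]
    unfold zr
    rw [if_pos hc]
  have htn : ∀ c, 0 ≤ t c := fun c => tr_nonneg G c0 _ _ hsub M c
  have hzt : ∀ c, z c ≤ Real.exp (-(t c)) := by
    intro c
    by_cases hc : c ∈ M f
    · have h1 : z c = zz G c0 (R.erase f) (nb G (R.erase f) f) M c := hzz c hc
      have h2 : 0 < zz G c0 (R.erase f) (nb G (R.erase f) f) M c := by
        unfold zz
        exact div_pos (hne'' c) hne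
      have h3 : t c ≤ -Real.log (zz G c0 (R.erase f) (nb G (R.erase f) f) M c) := by
        rw [ht]; unfold tr; exact min_le_right _ _
      rw [h1]
      calc _ = Real.exp (Real.log (zz G c0 (R.erase f) (nb G (R.erase f) f) M c)) :=
            (Real.exp_log h2).symm
        _ ≤ _ := Real.exp_le_exp.2 (by linarith)
    · rw [hz0 c hc]
      exact (Real.exp_pos _).le
  -- removal
  have hrem : ∀ c, |EE G c0 (R.erase f) M (fun τ => F (Function.update τ f c)) - Fc c| ≤
      (1 + D) * t c := by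
    intro c
    have r1 := removal G c0 s Δ n D (by omega) hD0 hD (nb G (R.erase f) f) (R.erase f) M c
      (fun τ => F (Function.update τ f c)) hsub hSΔ hcard' hSl' hSlP' (Lip_update R F hF f c)
    rw [hFc]
    simp only
    rw [← nb_erase_self G R f]
    exact r1
  have hFb : ∀ c ∈ M f, ∀ d ∈ M f, |Fc c - Fc d| ≤ 1 + (1 + D) * min 1 (t c + t d) := by
    intro c _ d _
    have r1 := hrem c
    have r2 := hrem d
    have r3 := EE_abs_sub_le G c0 (R.erase f) M (fun τ => F (Function.update τ f c))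
      (fun τ => F (Function.update τ f d)) 1 zero_le_one
      (fun τ => Lip_change R F hF f c d τ)
    have r4 := hD (R.erase f) M f c d (fun τ => F (Function.update τ f c)) hcard'' (by simp) hfΔ
      hSl' hSlP' (Lip_update R F hF f c)
    have r5 := EE_abs_sub_le G c0 (R.erase f) (era M (nb G (R.erase f) f) d)
      (fun τ => F (Function.update τ f c)) (fun τ => F (Function.update τ f d)) 1 zero_le_one
      (fun τ => Lip_change R F hF f c d τ)
    rw [nb_erase_self] at r4 r5
    rcases min_choice 1 (t c + t d) with h | h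
    · rw [h, mul_one]
      refine (abs_sub_le _ _ _).trans ((add_le_add r4 r5).trans ?_)
      linarith
    · rw [h]
      rw [abs_le] at r1 r2 r3 ⊢
      constructor
      · nlinarith [r1.1, r1.2, r2.1, r2.2, r3.1, r3.2]
      · nlinarith [r1.1, r1.2, r2.1, r2.2, r3.1, r3.2]
  -- the refined bound for pairs
  have hFr : ∀ c ∈ M f, ∀ d ∈ M f, c ≠ d → z c ≤ z d → 1 ≤ z c + z d →
      z c * |Fc c - Fc d| ≤ z c + (1 + D) * (147 / 200 * z c + 6 / 25 * (1 - z d)) := by
    intro c hc d hd hcd h1 h2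
    rw [hzz c hc, hzz d hd] at h1 h2 ⊢
    have r4 := hDR (R.erase f) M f c d (fun τ => F (Function.update τ f c)) hcard'' (by simp) hfΔ
      hSl' hSlP' (Lip_update R F hF f c) hcd h1 h2
    have r5 := EE_abs_sub_le G c0 (R.erase f) (era M (nb G (R.erase f) f) d)
      (fun τ => F (Function.update τ f c)) (fun τ => F (Function.update τ f d)) 1 zero_le_one
      (fun τ => Lip_change R F hF f c d τ)
    have r6 : |Fc c - Fc d| ≤
        |EE G c0 (R.erase f) (era M (nb G (R.erase f) f) c)
            (fun τ => F (Function.update τ f c)) -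
          EE G c0 (R.erase f) (era M (nb G (R.erase f) f) d)
            (fun τ => F (Function.update τ f c))| + 1 := by
      rw [hFc]
      simp only
      rw [← nb_erase_self G R f]
      exact (abs_sub_le _ _ _).trans (add_le_add le_rfl r5)
    have h0 : 0 ≤ zz G c0 (R.erase f) (nb G (R.erase f) f) M c := by
      rw [← hzz c hc]; exact hzn c
    calc _ ≤ zz G c0 (R.erase f) (nb G (R.erase f) f) M c *
          (|EE G c0 (R.erase f) (era M (nb G (R.erase f) f) c)
            (fun τ => F (Function.update τ f c)) -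
          EE G c0 (R.erase f) (era M (nb G (R.erase f) f) d)
            (fun τ => F (Function.update τ f c))| + 1) := mul_le_mul_of_nonneg_left r6 h0
      _ ≤ _ := by rw [mul_add, mul_one]; linarith
  -- the number of unused colours
  have hZ : ∑ c ∈ M f, z c =
      EE G c0 (R.erase f) M (fun σ => (Nf (nb G (R.erase f) f) (M f) σ : ℝ)) := by
    have h1 := sum_zz_EE G c0 (R.erase f) (nb G (R.erase f) f) hsub M (M f) (fun _ _ => 1) hne''
    have h2 : ∑ c ∈ M f, z c = ∑ c ∈ M f, zr G c0 (R.erase f) (nb G (R.erase f) f) M (M f) c *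
        EE G c0 (R.erase f) (era M (nb G (R.erase f) f) c) (fun _ => 1) := by
      refine Finset.sum_congr rfl (fun c _ => ?_)
      rw [EE_const G c0 _ _ 1 (hne'' c), mul_one]
    rw [h2, h1]
    congr 1
    funext σ
    rw [Finset.sum_const, nsmul_eq_mul, mul_one]
    rfl
  set Z : ℝ := ∑ c ∈ M f, z c with hZdef
  set ρ : ℝ := Z - (((M f).card : ℝ) - ((nb G (R.erase f) f).card : ℝ)) with hρdef
  set m : ℝ := ((nb G (R.erase f) f).card : ℝ) with hmdef
  have hm0 : 0 ≤ m := Nat.cast_nonneg _
  have hm7 : 4 * m ≤ 7 * (s : ℝ) := by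
    have h1 : 4 * (nb G (R.erase f) f).card ≤ 7 * s := by omega
    rw [hmdef]
    exact_mod_cast h1
  have hρ0 : 0 ≤ ρ := by
    rw [hρdef, hZ]
    have := EE_mono G c0 (R.erase f) M
      (fun _ => ((M f).card : ℝ) - ((nb G (R.erase f) f).card : ℝ)) _
      (fun σ => Nf_ge (nb G (R.erase f) f) (M f) σ)
    rw [EE_const G c0 _ _ _ hne] at this
    linarith
  have hZρ : (s : ℝ) + 1 + ρ ≤ Z := by
    rw [hρdef]
    linarith
  have hZ2 : 2 ≤ Z := by linarith
  have hZ0 : 0 < Z := by linarith
  have hshift : ∀ d ∈ M f, |Z * Fc d - ∑ c ∈ M f, z c * Fc c| ≤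
      Z * (1 + (1 + D) * (t d + (7 / 5 * ρ + 2 / 125 * m) / Z)) := by
    intro d hd
    set Hd : (V → C) → ℝ := fun τ => F (Function.update τ f d) with hHd
    have s1 := shift G c0 s Δ n D (by omega) hD0 hD (nb G (R.erase f) f) (R.erase f) M (M f)
      Hd hsub hSΔ hcard' hSl' hSlP' (Lip_update R F hF f d)
    rw [← hZ, ← hρdef] at s1
    have s2 := hrem d
    have s3 : ∑ c ∈ M f, z c * Fc c = EE G c0 (R.erase f) M
        (fun σ => ∑ c ∈ (M f).filter (fun c => Kc (nb G (R.erase f) f) c σ = 0),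
          F (Function.update σ f c)) := by
      have := sum_zz_EE G c0 (R.erase f) (nb G (R.erase f) f) hsub M (M f)
        (fun c τ => F (Function.update τ f c)) hne''
      rw [← this, hFc]
      simp only
      rw [← nb_erase_self G R f]
    have s4 : |EE G c0 (R.erase f) M
        (fun σ => (Nf (nb G (R.erase f) f) (M f) σ : ℝ) * Hd σ) - ∑ c ∈ M f, z c * Fc c| ≤ Z := by
      rw [s3, EE_sub, hZ]
      refine EE_abs G c0 _ _ _ _ (fun σ => ?_)
      have e1 : (Nf (nb G (R.erase f) f) (M f) σ : ℝ) * Hd σ =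
          ∑ c ∈ (M f).filter (fun c => Kc (nb G (R.erase f) f) c σ = 0), Hd σ := by
        rw [Finset.sum_const, nsmul_eq_mul]
        rfl
      rw [e1, ← Finset.sum_sub_distrib]
      refine (Finset.abs_sum_le_sum_abs _ _).trans ?_
      have e2 : (Nf (nb G (R.erase f) f) (M f) σ : ℝ) =
          ∑ c ∈ (M f).filter (fun c => Kc (nb G (R.erase f) f) c σ = 0), (1 : ℝ) := by
        rw [Finset.sum_const, nsmul_eq_mul, mul_one]
        rfl
      rw [e2]
      exact Finset.sum_le_sum (fun c _ => Lip_change R F hF f d c σ)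
    have e3 : Z * (1 + (1 + D) * (t d + (7 / 5 * ρ + 2 / 125 * m) / Z)) =
        Z + Z * ((1 + D) * t d) + (1 + D) * (7 / 5 * ρ + 2 / 125 * m) := by
      field_simp
      ring
    rw [e3]
    have s5 : |Z * Fc d - Z * EE G c0 (R.erase f) M Hd| ≤ Z * ((1 + D) * t d) := by
      rw [← mul_sub, abs_mul, abs_of_pos hZ0, abs_sub_comm]
      exact mul_le_mul_of_nonneg_left s2 hZ0.le
    rw [abs_le] at s1 s4 s5 ⊢
    constructor
    · linarith [s1.1, s1.2, s4.1, s4.2, s5.1, s5.2]
    · linarith [s1.1, s1.2, s4.1, s4.2, s5.1, s5.2]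
  have hWa : ∀ a, nc G c0 R (era M {f} a) = ((Col G c0 (R.erase f) M).card : ℝ) * (Z - z a) := by
    intro a
    exact nc_era_single G c0 R M f hf a hne
  have hV : nc G c0 R M = ((Col G c0 (R.erase f) M).card : ℝ) * Z := nc_total G c0 R M f hf hne
  set Q : ℝ := ((Col G c0 (R.erase f) M).card : ℝ) with hQ
  rw [EE_split G c0 R M f hf a F hne hne', EE_split G c0 R M f hf b F hne hne', ← hz]
  have key : ∀ a b : C, a ≠ b → z a ≤ z b →
      |(∑ c ∈ (M f).erase a, z c * Fc c) / (Z - z a)
        - (∑ c ∈ (M f).erase b, z c * Fc c) / (Z - z b)| ≤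
        1 + (1 + D) * ((4 / 7) / s) ∧
      |(∑ c ∈ (M f).erase a, z c * Fc c) / (Z - z a)
        - (∑ c ∈ (M f).erase b, z c * Fc c) / (Z - z b)| ≤
        (1 + (1 + D) * ((417 / 1000) / s)) + ((1 + D) * (6 / 25)) *
        ((nc G c0 R M - max (nc G c0 R (era M {f} a)) (nc G c0 R (era M {f} b))) /
          max (nc G c0 R (era M {f} a)) (nc G c0 R (era M {f} b))) := by
    intro a b hab h
    have hmax : max (nc G c0 R (era M {f} a)) (nc G c0 R (era M {f} b)) = Q * (Z - z a) := by
      rw [hWa a, hWa b]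
      exact max_eq_left (mul_le_mul_of_nonneg_left (by linarith) hne.le)
    have hza : 0 < Z - z a := by linarith [hz1 a]
    have hrat : (nc G c0 R M - max (nc G c0 R (era M {f} a)) (nc G c0 R (era M {f} b))) /
          max (nc G c0 R (era M {f} a)) (nc G c0 R (era M {f} b)) = z a / (Z - z a) := by
      rw [hmax, hV]
      have : Q * Z - Q * (Z - z a) = Q * z a := by ring
      rw [this, mul_div_mul_left _ _ hne.ne']
    rw [hrat]
    -- the pair quantity
    obtain ⟨Φ, hΦ⟩ : ∃ Φ : ℝ, Φ = min (min 1 (t a + t b))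
        (if 1 ≤ z a + z b ∧ 0 < z a then 147 / 200 + 6 / 25 * (1 - z b) / z a else 1) := ⟨_, rfl⟩
    have hΦ1 : Φ ≤ 1 := by rw [hΦ]; exact (min_le_left _ _).trans (min_le_left _ _)
    have hΦ2 : Φ ≤ t a + t b := by rw [hΦ]; exact (min_le_left _ _).trans (min_le_right _ _)
    have hΦ3 : 1 ≤ z a + z b → z a * Φ ≤ 147 / 200 * z a + 6 / 25 * (1 - z b) := by
      intro h1
      rcases (hzn a).eq_or_lt with h0 | h0
      · rw [← h0]
        have := hz1 b
        simp only [zero_mul, mul_zero, zero_add]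
        linarith
      · have h2 : Φ ≤ 147 / 200 + 6 / 25 * (1 - z b) / z a := by
          rw [hΦ]
          refine (min_le_right _ _).trans ?_
          rw [if_pos ⟨h1, h0⟩]
        have h3 := mul_le_mul_of_nonneg_left h2 h0.le
        have h4 : z a * (147 / 200 + 6 / 25 * (1 - z b) / z a) =
            147 / 200 * z a + 6 / 25 * (1 - z b) := by
          field_simp
        linarith
    have hFab : a ∈ M f → b ∈ M f → |Fc a - Fc b| ≤ 1 + (1 + D) * Φ := by
      intro ha hb
      rw [hΦ]
      rcases min_choice (min 1 (t a + t b))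
        (if 1 ≤ z a + z b ∧ 0 < z a then 147 / 200 + 6 / 25 * (1 - z b) / z a else 1) with h1 | h1
      · rw [h1]
        exact hFb a ha b hb
      · rw [h1]
        split_ifs with h2
        · have h3 := hFr a ha b hb hab h h2.1
          have h5 : 0 < z a := h2.2
          have h4 : z a * (1 + (1 + D) * (147 / 200 + 6 / 25 * (1 - z b) / z a)) =
              z a + (1 + D) * (147 / 200 * z a + 6 / 25 * (1 - z b)) := by
            field_simp
          rw [← h4] at h3
          exact le_of_mul_le_mul_left h3 h5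
        · refine (hFb a ha b hb).trans ?_
          have : (1 + D) * min 1 (t a + t b) ≤ (1 + D) * 1 :=
            mul_le_mul_of_nonneg_left (min_le_left _ _) (by linarith)
          linarith
    have h0 := algPair (M f) z t Fc (1 + D) ((7 / 5 * ρ + 2 / 125 * m) / Z) Φ a b hz0 hzn hz1
      (by linarith) hFb hFab hshift h hZ2
    have h1 := numFin Z (z a) (z b) (t a) (t b) ρ s m Φ (by linarith) hm0 hm7 hρ0 hZρ (hzn a) h
      (hz1 b) (htn a) (htn b) (hzt a) (hzt b) hΦ1 hΦ2 hΦ3
    have h2 : 0 ≤ 1 + D := by linarith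
    constructor
    · have h3 := mul_le_mul_of_nonneg_left h1.1 h2
      linarith
    · have h3 := mul_le_mul_of_nonneg_left h1.2 h2
      have e : (1 + D) * ((417 / 1000) / (s : ℝ) + 6 / 25 * (z a / (Z - z a))) =
        (1 + D) * ((417 / 1000) / (s : ℝ)) + (1 + D) * (6 / 25) * (z a / (Z - z a)) := by ring
      linarith
  rcases le_total (z a) (z b) with h | h
  · exact key a b hab h
  · have k := key b a hab.symm h
    rw [abs_sub_comm] at k
    rw [max_comm (nc G c0 R (era M {f} b))] at k
    exact k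

end Pool.Agent.E8helper20.GL
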